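import Pool.Agent.Q109.RC.Stm

/-!
# Project RC, job EMB: greedy embedding
-/

set_option autoImplicit false

namespace Q251.RC

open Finset Q109.RC

theorem greedy (s u : ℕ) (d : ℕ → ℕ) : ∀ N : ℕ, (∀ i < N, 1 ≤ d i ∧ 2 * d i ≤ u) → 8 * N ≤ u →
    ∃ z : ℕ → ℕ, (∀ i < N, s ≤ z i ∧ z i + d i < s + u) ∧
      ∀ i < N, ∀ j < N, i ≠ j → z i ≠ z j ∧ z i + d i ≠ z j + d j ∧ z i ≠ z j + d j := by
  intro N
  induction N with
  | zero =>
    intro _ _
    exact ⟨fun _ => 0, fun i hi => absurd hi (Nat.not_lt_zero _), fun i hi => absurd hi (Nat.not_lt_zero _)⟩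
  | succ N ih =>
    intro hd hN
    obtain ⟨z, hz1, hz2⟩ := ih (fun i hi => hd i (by omega)) (by omega)
    obtain ⟨hdN1, hdN2⟩ := hd N (by omega)
    set Forb : Finset ℕ := ((range N).image z ∪ (range N).image (fun i => z i + d i)) ∪
      ((range N).image (fun i => z i - d N) ∪ (range N).image (fun i => z i + d i - d N)) with hF
    have hc : Forb.card ≤ 4 * N := by
      have h1 := card_union_le ((range N).image z ∪ (range N).image (fun i => z i + d i))
        ((range N).image (fun i => z i - d N) ∪ (range N).image (fun i => z i + d i - d N))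
      have h2 := card_union_le ((range N).image z) ((range N).image (fun i => z i + d i))
      have h3 := card_union_le ((range N).image (fun i => z i - d N)) ((range N).image (fun i => z i + d i - d N))
      have c1 := card_image_le (s := range N) (f := z)
      have c2 := card_image_le (s := range N) (f := fun i => z i + d i)
      have c3 := card_image_le (s := range N) (f := fun i => z i - d N)
      have c4 := card_image_le (s := range N) (f := fun i => z i + d i - d N)
      rw [card_range] at c1 c2 c3 c4
      rw [← hF] at h1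
      omega
    have hI : (Ico s (s + u / 2)).card = u / 2 := by rw [Nat.card_Ico]; omega
    obtain ⟨w, hw1, hw2⟩ := exists_mem_notMem_of_card_lt_card (show Forb.card < (Ico s (s + u / 2)).card by
      rw [hI]; omega)
    rw [mem_Ico] at hw1
    have hwF : ∀ j < N, w ≠ z j ∧ w ≠ z j + d j ∧ w + d N ≠ z j ∧ w + d N ≠ z j + d j := by
      intro j hj
      have hj' : j ∈ range N := mem_range.2 hj
      refine ⟨?_, ?_, ?_, ?_⟩
      · intro h
        apply hw2
        rw [hF, h]
        exact mem_union_left _ (mem_union_left _ (mem_image_of_mem z hj'))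
      · intro h
        apply hw2
        rw [hF, h]
        exact mem_union_left _ (mem_union_right _ (mem_image_of_mem (fun i => z i + d i) hj'))
      · intro h
        apply hw2
        have : w = z j - d N := by omega
        rw [hF, this]
        exact mem_union_right _ (mem_union_left _ (mem_image_of_mem (fun i => z i - d N) hj'))
      · intro h
        apply hw2
        have : w = z j + d j - d N := by omega
        rw [hF, this]
        exact mem_union_right _ (mem_union_right _ (mem_image_of_mem (fun i => z i + d i - d N) hj'))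
    have hzN : Function.update z N w N = w := Function.update_self _ _ _
    have hzi : ∀ i < N, Function.update z N w i = z i := fun i hi => Function.update_of_ne (by omega) _ _
    refine ⟨Function.update z N w, ?_, ?_⟩
    · intro i hi
      rcases Nat.lt_or_ge i N with h | h
      · rw [hzi i h]
        exact hz1 i h
      · have : i = N := by omega
        rw [this, hzN]
        constructor
        · exact hw1.1
        · omega
    · intro i hi j hj hij
      rcases Nat.lt_or_ge i N with h | h
      · rcases Nat.lt_or_ge j N with h' | h'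
        · rw [hzi i h, hzi j h']
          exact hz2 i h j h' hij
        · have : j = N := by omega
          rw [this, hzN, hzi i h]
          obtain ⟨a1, a2, a3, a4⟩ := hwF i h
          exact ⟨fun h => a1 h.symm, fun h => a4 h.symm, fun h => a3 h.symm⟩
      · have hiN : i = N := by omega
        have hjN : j < N := by omega
        rw [hiN, hzN, hzi j hjN]
        obtain ⟨a1, a2, a3, a4⟩ := hwF j hjN
        exact ⟨a1, a4, a2⟩

theorem emb : S_Emb := by
  intro K L R u s r δ hr hu
  set d : ℕ → ℕ := fun e => δ (e / R / L) with hd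
  have henc : ∀ k < K, ∀ i < L, ∀ j < R, ((k * L + i) * R + j) / R / L = k ∧ ((k * L + i) * R + j) / R % L = i ∧
      ((k * L + i) * R + j) % R = j ∧ (k * L + i) * R + j < K * L * R := by
    intro k hk i hi j hj
    have e1 : ((k * L + i) * R + j) / R = k * L + i := by
      rw [Nat.add_div_of_dvd_right (Dvd.intro_left _ rfl), Nat.mul_div_cancel _ (by omega), Nat.div_eq_of_lt hj, add_zero]
    have e2 : (k * L + i) / L = k := by
      rw [Nat.add_div_of_dvd_right (Dvd.intro_left _ rfl), Nat.mul_div_cancel _ (by omega), Nat.div_eq_of_lt hi, add_zero]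
    rw [e1, e2]
    refine ⟨rfl, ?_, ?_, ?_⟩
    · exact Nat.mul_add_mod_of_lt hi
    · exact Nat.mul_add_mod_of_lt hj
    · have h1 : k * L + i + 1 ≤ K * L := by
        calc k * L + i + 1 ≤ k * L + L := by omega
          _ = (k + 1) * L := by ring
          _ ≤ K * L := Nat.mul_le_mul_right _ hk
      calc (k * L + i) * R + j < (k * L + i) * R + R := by omega
        _ = (k * L + i + 1) * R := by ring
        _ ≤ K * L * R := Nat.mul_le_mul_right _ h1
  have hlt : ∀ e < K * L * R, e / R / L < K := by
    intro e he
    have hR : 0 < R := by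
      rcases Nat.eq_zero_or_pos R with h | h
      · rw [h, mul_zero] at he; omega
      · exact h
    have hL : 0 < L := by
      rcases Nat.eq_zero_or_pos L with h | h
      · rw [h, mul_zero, zero_mul] at he; omega
      · exact h
    rw [Nat.div_div_eq_div_mul, Nat.div_lt_iff_lt_mul (Nat.mul_pos hR hL)]
    calc e < K * L * R := he
      _ = K * (R * L) := by ring
  obtain ⟨z, hz1, hz2⟩ := greedy s u d (K * L * R) (fun e he => (hr _ (hlt e he)).2.2) hu
  set enc : ℕ → ℕ → ℕ → ℕ := fun k i j => (k * L + i) * R + j with hencdef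
  have hencd : ∀ k < K, ∀ i < L, ∀ j < R, d (enc k i j) = δ k := by
    intro k hk i hi j hj
    have := (henc k hk i hi j hj).1
    simp only [hd, hencdef]
    rw [this]
  have hencN : ∀ k < K, ∀ i < L, ∀ j < R, enc k i j < K * L * R := fun k hk i hi j hj => (henc k hk i hi j hj).2.2.2
  have hinj : ∀ k < K, ∀ i < L, ∀ j < R, ∀ k' < K, ∀ i' < L, ∀ j' < R, enc k i j = enc k' i' j' →
      k = k' ∧ i = i' ∧ j = j' := by
    intro k hk i hi j hj k' hk' i' hi' j' hj' he
    obtain ⟨a1, a2, a3, _⟩ := henc k hk i hi j hj
    obtain ⟨b1, b2, b3, _⟩ := henc k' hk' i' hi' j' hj'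
    have he' : (k * L + i) * R + j = (k' * L + i') * R + j' := he
    rw [he'] at a1 a2 a3
    exact ⟨a1.symm.trans b1, a2.symm.trans b2, a3.symm.trans b3⟩
  set Z : ℕ → ℕ → Finset ℕ := fun k i => (range (r k)).image (fun j => z (enc k i j)) with hZ
  have hmemJ : ∀ k < K, ∀ i < L, ∀ x ∈ Z k i ∪ (Z k i).image (fun y => y + δ k),
      ∃ j < r k, x = z (enc k i j) ∨ x = z (enc k i j) + δ k := by
    intro k hk i hi x hx
    rw [mem_union] at hx
    rcases hx with hx | hx
    · simp only [hZ] at hx
      rw [mem_image] at hx
      obtain ⟨j, hj, rfl⟩ := hx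
      exact ⟨j, mem_range.1 hj, Or.inl rfl⟩
    · rw [mem_image] at hx
      obtain ⟨y, hy, rfl⟩ := hx
      simp only [hZ] at hy
      rw [mem_image] at hy
      obtain ⟨j, hj, rfl⟩ := hy
      exact ⟨j, mem_range.1 hj, Or.inr rfl⟩
  refine ⟨fun k i => Z k i ∪ (Z k i).image (fun y => y + δ k), ?_, ?_⟩
  · intro k hk i hi
    obtain ⟨hr1, hr2, hδ1, hδ2⟩ := hr k hk
    have hzc : (Z k i).card = r k := by
      simp only [hZ]
      rw [card_image_of_injOn, card_range]
      intro j hj j' hj' he
      rw [coe_range, Set.mem_Iio] at hj hj'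
      by_contra hne
      have h1 : enc k i j ≠ enc k i j' := fun h => hne (hinj k hk i hi j (by omega) k hk i hi j' (by omega) h).2.2
      exact (hz2 _ (hencN k hk i hi j (by omega)) _ (hencN k hk i hi j' (by omega)) h1).1 he
    have hzc' : ((Z k i).image (fun y => y + δ k)).card = r k := by
      rw [card_image_of_injective _ (fun a b h => by simpa using h), hzc]
    have hdis : Disjoint (Z k i) ((Z k i).image (fun y => y + δ k)) := by
      rw [disjoint_left]
      intro x hx hx'
      simp only [hZ] at hx hx'
      rw [mem_image] at hx hx'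
      obtain ⟨j, hj, rfl⟩ := hx
      obtain ⟨y, hy, hxy⟩ := hx'
      rw [mem_image] at hy
      obtain ⟨j', hj', rfl⟩ := hy
      rw [mem_range] at hj hj'
      by_cases hjj : j = j'
      · subst hjj
        omega
      · have h1 : enc k i j ≠ enc k i j' := fun h => hjj (hinj k hk i hi j (by omega) k hk i hi j' (by omega) h).2.2
        have h2 := (hz2 _ (hencN k hk i hi j (by omega)) _ (hencN k hk i hi j' (by omega)) h1).2.2
        rw [hencd k hk i hi j' (by omega)] at h2
        exact h2 hxy.symm
    refine ⟨?_, ?_, Z k i, subset_union_left, (Z k i).image (fun y => y + δ k), subset_union_right, ?_, hzc, hzc', ?_⟩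
    · intro x hx
      obtain ⟨j, hj, hxj⟩ := hmemJ k hk i hi x hx
      have h1 := hz1 _ (hencN k hk i hi j (by omega))
      rw [hencd k hk i hi j (by omega)] at h1
      rw [mem_Ico]
      rcases hxj with rfl | rfl <;> omega
    · rw [card_union_of_disjoint hdis, hzc, hzc']
      ring
    · intro heq
      have h1 : (Z k i).Nonempty := by
        rw [← card_pos, hzc]
        omega
      obtain ⟨x, hx⟩ := h1
      have h2 : x ∈ (Z k i).image (fun y => y + δ k) := by rw [← heq]; exact hx
      exact disjoint_left.1 hdis hx h2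
    · rw [sum_image (fun a _ b _ h => by simpa using h), sum_add_distrib, sum_const, hzc, smul_eq_mul]
  · intro k hk i hi k' hk' i' hi' hne
    obtain ⟨hr1, hr2, hδ1, hδ2⟩ := hr k hk
    obtain ⟨hr1', hr2', hδ1', hδ2'⟩ := hr k' hk'
    rw [disjoint_left]
    intro x hx hx'
    obtain ⟨j, hj, hxj⟩ := hmemJ k hk i hi x hx
    obtain ⟨j', hj', hxj'⟩ := hmemJ k' hk' i' hi' x hx'
    have h1 : enc k i j ≠ enc k' i' j' := by
      intro h
      obtain ⟨a1, a2, _⟩ := hinj k hk i hi j (by omega) k' hk' i' hi' j' (by omega) h
      exact hne (by rw [a1, a2])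
    have h2 := hz2 _ (hencN k hk i hi j (by omega)) _ (hencN k' hk' i' hi' j' (by omega)) h1
    have h3 := hz2 _ (hencN k' hk' i' hi' j' (by omega)) _ (hencN k hk i hi j (by omega)) (Ne.symm h1)
    rw [hencd k hk i hi j (by omega), hencd k' hk' i' hi' j' (by omega)] at h2 h3
    rcases hxj with h4 | h4 <;> rcases hxj' with h5 | h5
    · exact h2.1 (h4.symm.trans h5)
    · exact h2.2.2 (h4.symm.trans h5)
    · exact h3.2.2 (h5.symm.trans h4)
    · exact h2.2.1 (h4.symm.trans h5)

end Q251.RC
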