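import Pool.Agent.Q151.OG.Stm

/-! Standard monomials (lemma job EXA of the project OG of helper151). -/

set_option autoImplicit false

namespace Pool.Agent.Q251.OGE

open MvPolynomial Q151.OG

theorem exa : S_EXA := by
  classical
  intro σ ι _ w _ V
  let _ : LinearOrder σ := IsWellOrder.linearOrder (WellOrderingRel (α := σ))
  have : WellFoundedGT σ := Finite.to_wellFoundedGT
  obtain ⟨MO, -⟩ : ∃ MO : MonomialOrder σ, MO = MonomialOrder.lex := ⟨_, rfl⟩
  obtain ⟨I, hI⟩ : ∃ I : Ideal (MvPolynomial σ ℂ), I = vanishingIdeal ℂ V := ⟨_, rfl⟩
  obtain ⟨U, hU⟩ : ∃ U : Set (σ →₀ ℕ), U = {m | ∃ f ∈ I, f ≠ 0 ∧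
    f.IsWeightedHomogeneous w (Finsupp.weight w m) ∧ MO.degree f = m} := ⟨_, rfl⟩
  refine ⟨U, ?_, ?_⟩
  · intro m m' hmm' hm
    rw [hU] at hm ⊢
    obtain ⟨f, hf, hf0, hfw, hfd⟩ := hm
    obtain ⟨a, rfl⟩ := exists_add_of_le hmm'
    refine ⟨monomial a 1 * f, I.mul_mem_left _ hf, ?_, ?_, ?_⟩
    · exact mul_ne_zero (by rw [Ne, monomial_eq_zero]; exact one_ne_zero) hf0
    · rw [add_comm m a, map_add]
      exact (isWeightedHomogeneous_monomial w a 1 rfl).mul hfw
    · rw [MO.degree_mul (by rw [Ne, monomial_eq_zero]; exact one_ne_zero) hf0,
        MO.degree_monomial, if_neg one_ne_zero, hfd, add_comm]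
  · intro μ
    obtain ⟨q, hq⟩ : ∃ q : MvPolynomial σ ℂ →ₗ[ℂ] MvPolynomial σ ℂ ⧸ I,
      q = (Ideal.Quotient.mkₐ ℂ I).toLinearMap := ⟨_, rfl⟩
    have hq0 : ∀ f, q f = 0 ↔ f ∈ I := by
      intro f
      rw [hq]
      exact Ideal.Quotient.eq_zero_iff_mem
    obtain ⟨v, hv⟩ : ∃ v : {m : σ →₀ ℕ // Finsupp.weight w m = μ ∧ m ∉ U} → MvPolynomial σ ℂ,
      v = fun m => monomial m.1 1 := ⟨_, rfl⟩
    have hv1 : LinearIndependent ℂ v := by
      have h1 := (basisMonomials σ ℂ).linearIndependent.comp
        (Subtype.val : {m : σ →₀ ℕ // Finsupp.weight w m = μ ∧ m ∉ U} → (σ →₀ ℕ))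
        Subtype.val_injective
      have h2 : (⇑(basisMonomials σ ℂ) ∘
          (Subtype.val : {m : σ →₀ ℕ // Finsupp.weight w m = μ ∧ m ∉ U} → (σ →₀ ℕ))) = v := by
        funext m
        rw [hv]
        simp
      rwa [h2] at h1
    have hsupp : ∀ f ∈ Submodule.span ℂ (Set.range v), ∀ m ∈ f.support,
        Finsupp.weight w m = μ ∧ m ∉ U := by
      intro f hf
      induction hf using Submodule.span_induction with
      | mem x hx =>
        obtain ⟨m, rfl⟩ := hx
        intro m' hm'
        rw [hv] at hm'
        have h1 := support_monomial_subset hm'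
        rw [Finset.mem_singleton] at h1
        rw [h1]
        exact m.2
      | zero => simp
      | add x y _ _ hx hy =>
        intro m hm
        rcases Finset.mem_union.1 (support_add hm) with h | h
        · exact hx m h
        · exact hy m h
      | smul a x _ hx =>
        intro m hm
        exact hx m (support_smul hm)
    have hli : LinearIndependent ℂ (q ∘ v) := by
      apply hv1.map
      rw [Submodule.disjoint_def]
      intro f hf1 hf2
      by_contra hf0
      rw [LinearMap.mem_ker, hq0] at hf2
      have h1 := hsupp f hf1 _ (MO.degree_mem_support hf0)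
      apply h1.2
      rw [hU]
      refine ⟨f, hf2, hf0, ?_, rfl⟩
      rw [h1.1]
      intro m hm
      exact (hsupp f hf1 m (mem_support_iff.2 hm)).1
    have hmon : ∀ m : σ →₀ ℕ, Finsupp.weight w m = μ →
        q (monomial m 1) ∈ Submodule.span ℂ (Set.range (q ∘ v)) := by
      have key : ∀ s : MO.syn, ∀ m : σ →₀ ℕ, MO.toSyn m = s → Finsupp.weight w m = μ →
          q (monomial m 1) ∈ Submodule.span ℂ (Set.range (q ∘ v)) := by
        intro s
        induction s using WellFoundedLT.induction with
        | ind s ih =>
          intro m hms hmw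
          by_cases hmU : m ∈ U
          · rw [hU] at hmU
            obtain ⟨f, hf, hf0, hfw, hfd⟩ := hmU
            rw [hmw] at hfw
            have h1 : f.coeff m ≠ 0 := by
              have := MO.degree_mem_support hf0
              rw [hfd] at this
              exact mem_support_iff.1 this
            have hmem : m ∈ f.support := mem_support_iff.2 h1
            have h2 : q f = 0 := (hq0 f).2 hf
            have h3 : q f = f.coeff m • q (monomial m 1) +
                ∑ m' ∈ f.support.erase m, f.coeff m' • q (monomial m' 1) := by
              conv_lhs => rw [← f.support_sum_monomial_coeff]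
              rw [map_sum, ← Finset.add_sum_erase _ _ hmem]
              congr 1
              · rw [← map_smul, smul_monomial, smul_eq_mul, mul_one]
              · apply Finset.sum_congr rfl
                intro m' _
                rw [← map_smul, smul_monomial, smul_eq_mul, mul_one]
            rw [h2] at h3
            have h4 : q (monomial m 1) = -((f.coeff m)⁻¹ •
                ∑ m' ∈ f.support.erase m, f.coeff m' • q (monomial m' 1)) := by
              have h5 : f.coeff m • q (monomial m 1) =
                  -∑ m' ∈ f.support.erase m, f.coeff m' • q (monomial m' 1) :=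
                eq_neg_of_add_eq_zero_left h3.symm
              rw [← smul_neg, ← h5, smul_smul, inv_mul_cancel₀ h1, one_smul]
            rw [h4]
            apply Submodule.neg_mem
            apply Submodule.smul_mem
            apply Submodule.sum_mem
            intro m' hm'
            apply Submodule.smul_mem
            rw [Finset.mem_erase] at hm'
            refine ih (MO.toSyn m') ?_ m' rfl (hfw (mem_support_iff.1 hm'.2))
            rw [← hms]
            refine lt_of_le_of_ne ?_ ?_
            · have := MO.le_degree hm'.2
              rwa [hfd] at this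
            · intro h
              exact hm'.1 (MO.toSyn.injective h)
          · apply Submodule.subset_span
            refine ⟨⟨m, hmw, hmU⟩, ?_⟩
            rw [hv]
            rfl
      intro m hm
      exact key _ m rfl hm
    have hspan : (weightedHomogeneousSubmodule ℂ w μ).map q =
        Submodule.span ℂ (Set.range (q ∘ v)) := by
      apply le_antisymm
      · rintro _ ⟨f, hf, rfl⟩
        rw [← f.support_sum_monomial_coeff, map_sum]
        apply Submodule.sum_mem
        intro m hm
        have h1 : q (monomial m (f.coeff m)) = f.coeff m • q (monomial m 1) := by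
          rw [← map_smul, smul_monomial, smul_eq_mul, mul_one]
        rw [h1]
        apply Submodule.smul_mem
        exact hmon m (hf (mem_support_iff.1 hm))
      · rw [Submodule.span_le]
        rintro _ ⟨m, rfl⟩
        refine ⟨v m, ?_, rfl⟩
        rw [hv]
        exact isWeightedHomogeneous_monomial w _ 1 m.2.1
    have hcard : Module.finrank ℂ ↥((weightedHomogeneousSubmodule ℂ w μ).map q) =
        Nat.card {m : σ →₀ ℕ // Finsupp.weight w m = μ ∧ m ∉ U} := by
      rw [hspan]
      exact Module.finrank_eq_nat_card_basis (Module.Basis.span hli)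
    subst hI
    subst hq
    exact hcard

end Pool.Agent.Q251.OGE
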