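import Pool.Agent.Q256.EC.Stm

/-!
# Project EC (helper256, helper170), job TEM (helper251): Taylor expansions
-/

set_option autoImplicit false

namespace Pool.Agent.Q251.EC_TEM

open Pool.Agent.Q256.EC Polynomial

variable {K : Type} [NormedField K] {t : ℕ → K}

theorem Te_pos {k : ℕ} {a : ℕ → K} (h : Te t k a) :
    ∃ (φ : Polynomial K) (C : ℝ), 0 ≤ C ∧ ∀ n, ‖a n - φ.eval (t n)‖ ≤ C * ‖t n‖ ^ k := by
  obtain ⟨φ, C, hC⟩ := h
  exact ⟨φ, max C 0, le_max_right _ _, fun n => (hC n).trans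
    (mul_le_mul_of_nonneg_right (le_max_left _ _) (by positivity))⟩

theorem pow_le (ht : ∀ n, ‖t n‖ ≤ 1) {j k : ℕ} (h : j ≤ k) (n : ℕ) : ‖t n‖ ^ k ≤ ‖t n‖ ^ j :=
  pow_le_pow_of_le_one (norm_nonneg _) (ht n) h

theorem tem : S_TEM := by
  intro K _ t ht
  refine ⟨?_, ?_, ?_, ?_, ?_, ?_⟩
  · rintro k a b ⟨φ, C, hφ⟩ ⟨ψ, D, hψ⟩
    refine ⟨φ + ψ, C + D, fun n => ?_⟩
    rw [eval_add, add_mul]
    calc ‖a n + b n - (φ.eval (t n) + ψ.eval (t n))‖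
        = ‖(a n - φ.eval (t n)) + (b n - ψ.eval (t n))‖ := by congr 1; ring
      _ ≤ ‖a n - φ.eval (t n)‖ + ‖b n - ψ.eval (t n)‖ := norm_add_le _ _
      _ ≤ C * ‖t n‖ ^ k + D * ‖t n‖ ^ k := add_le_add (hφ n) (hψ n)
  · rintro k c a ⟨φ, C, hφ⟩
    refine ⟨Polynomial.C c * φ, ‖c‖ * C, fun n => ?_⟩
    rw [eval_mul, eval_C, ← mul_sub, norm_mul, mul_assoc]
    exact mul_le_mul_of_nonneg_left (hφ n) (norm_nonneg _)
  · intro k c
    refine ⟨Polynomial.C c, 0, fun n => ?_⟩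
    simp
  · intro j k a hjk h
    obtain ⟨φ, C, hC0, hC⟩ := Te_pos h
    exact ⟨φ, C, fun n => (hC n).trans (mul_le_mul_of_nonneg_left (pow_le ht hjk n) hC0)⟩
  · intro k C a h
    refine ⟨0, C, fun n => ?_⟩
    rw [eval_zero, sub_zero]
    exact h n
  · intro i j k l m A B a b hjl hil hkj ha hb hTa hTb
    obtain ⟨φ, C, hC0, hC⟩ := Te_pos hTa
    obtain ⟨ψ, D, hD0, hD⟩ := Te_pos hTb
    have ha' : ∀ n, ‖a n‖ ≤ |A| * ‖t n‖ ^ i := fun n =>
      (ha n).trans (mul_le_mul_of_nonneg_right (le_abs_self _) (by positivity))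
    have hb' : ∀ n, ‖b n‖ ≤ |B| * ‖t n‖ ^ j := fun n =>
      (hb n).trans (mul_le_mul_of_nonneg_right (le_abs_self _) (by positivity))
    refine ⟨φ * ψ, |A| * D + C * (|B| + D), fun n => ?_⟩
    have h1 : ‖ψ.eval (t n)‖ ≤ (|B| + D) * ‖t n‖ ^ j := by
      calc ‖ψ.eval (t n)‖ = ‖b n - (b n - ψ.eval (t n))‖ := by congr 1; ring
        _ ≤ ‖b n‖ + ‖b n - ψ.eval (t n)‖ := norm_sub_le _ _
        _ ≤ |B| * ‖t n‖ ^ j + D * ‖t n‖ ^ l := add_le_add (hb' n) (hD n)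
        _ ≤ |B| * ‖t n‖ ^ j + D * ‖t n‖ ^ j := by
          have := mul_le_mul_of_nonneg_left (pow_le ht hjl n) hD0
          linarith
        _ = (|B| + D) * ‖t n‖ ^ j := by ring
    rw [eval_mul]
    calc ‖a n * b n - φ.eval (t n) * ψ.eval (t n)‖
        = ‖a n * (b n - ψ.eval (t n)) + (a n - φ.eval (t n)) * ψ.eval (t n)‖ := by
          congr 1; ring
      _ ≤ ‖a n * (b n - ψ.eval (t n))‖ + ‖(a n - φ.eval (t n)) * ψ.eval (t n)‖ := norm_add_le _ _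
      _ = ‖a n‖ * ‖b n - ψ.eval (t n)‖ + ‖a n - φ.eval (t n)‖ * ‖ψ.eval (t n)‖ := by
          rw [norm_mul, norm_mul]
      _ ≤ (|A| * ‖t n‖ ^ i) * (D * ‖t n‖ ^ l) + (C * ‖t n‖ ^ k) * ((|B| + D) * ‖t n‖ ^ j) := by
          refine add_le_add ?_ ?_
          · exact mul_le_mul (ha' n) (hD n) (norm_nonneg _) (by positivity)
          · exact mul_le_mul (hC n) h1 (norm_nonneg _) (by positivity)
      _ = |A| * D * ‖t n‖ ^ (i + l) + C * (|B| + D) * ‖t n‖ ^ (k + j) := by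
          rw [pow_add, pow_add]; ring
      _ ≤ |A| * D * ‖t n‖ ^ m + C * (|B| + D) * ‖t n‖ ^ m := by
          refine add_le_add ?_ ?_
          · exact mul_le_mul_of_nonneg_left (pow_le ht hil n) (by positivity)
          · exact mul_le_mul_of_nonneg_left (pow_le ht hkj n) (by positivity)
      _ = (|A| * D + C * (|B| + D)) * ‖t n‖ ^ m := by ring

end Pool.Agent.Q251.EC_TEM
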