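import Pool.Agent.Q76.HM.Stm

/-! The kernel (lemma job KAP of the project HM of helper76). -/

set_option autoImplicit false

namespace Pool.Agent.Q251.HMK

open MeasureTheory Filter Topology Set Pool.Agent.Q76.HM
open scoped ENNReal

/-- `sinh x / x` -/
noncomputable def h (x : ℝ) : ℝ := dslope Real.sinh 0 x

theorem h_zero : h 0 = 1 := by
  unfold h
  rw [dslope_same, Real.deriv_sinh, Real.cosh_zero]

theorem h_ne (x : ℝ) (hx : x ≠ 0) : h x = Real.sinh x / x := by
  unfold h
  rw [dslope_of_ne _ hx, slope_def_field, Real.sinh_zero, sub_zero, sub_zero]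

theorem h_cont : Continuous h := by
  rw [continuous_iff_continuousAt]
  intro x
  by_cases hx : x = 0
  · subst hx
    exact continuousAt_dslope_same.2 Real.differentiable_sinh.differentiableAt
  · exact (continuousAt_dslope_of_ne hx).2 Real.continuous_sinh.continuousAt

theorem h_pos (x : ℝ) : 0 < h x := by
  rcases lt_trichotomy x 0 with hx | hx | hx
  · rw [h_ne x hx.ne]
    exact div_pos_of_neg_of_neg (Real.sinh_neg_iff.2 hx) hx
  · rw [hx, h_zero]
    exact one_pos
  · rw [h_ne x hx.ne']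
    exact div_pos (Real.sinh_pos_iff.2 hx) hx

theorem h_even (x : ℝ) : h (-x) = h x := by
  by_cases hx : x = 0
  · rw [hx, neg_zero]
  · rw [h_ne x hx, h_ne (-x) (neg_ne_zero.2 hx), Real.sinh_neg, neg_div_neg_eq]

theorem h_bound (x : ℝ) : (h x)⁻¹ ≤ (1 + 2 * |x|) * Real.exp (-|x|) := by
  have key : ∀ x : ℝ, 0 ≤ x → (h x)⁻¹ ≤ (1 + 2 * x) * Real.exp (-x) := by
    intro x hx
    rcases hx.eq_or_lt with h0 | h0
    · rw [← h0, h_zero]
      norm_num
    · rw [h_ne x h0.ne', inv_div, div_le_iff₀ (Real.sinh_pos_iff.2 h0), Real.sinh_eq]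
      have h1 : 2 * x + 1 ≤ Real.exp (2 * x) := Real.add_one_le_exp _
      have h2 : Real.exp (-x) * Real.exp x = 1 := by rw [← Real.exp_add]; simp
      have h3 : Real.exp (2 * x) * (Real.exp (-x) * Real.exp (-x)) = 1 := by
        rw [← Real.exp_add, ← Real.exp_add]
        rw [show 2 * x + (-x + -x) = 0 by ring, Real.exp_zero]
      have h4 : 0 < Real.exp (-x) := Real.exp_pos _
      have h5 : (2 * x + 1) * (Real.exp (-x) * Real.exp (-x)) ≤ 1 := by
        calc (2 * x + 1) * (Real.exp (-x) * Real.exp (-x)) ≤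
            Real.exp (2 * x) * (Real.exp (-x) * Real.exp (-x)) :=
              mul_le_mul_of_nonneg_right h1 (by positivity)
          _ = 1 := h3
      have h6 : (1 + 2 * x) * Real.exp (-x) * ((Real.exp x - Real.exp (-x)) / 2) =
          ((1 + 2 * x) * (Real.exp (-x) * Real.exp x) -
            (2 * x + 1) * (Real.exp (-x) * Real.exp (-x))) / 2 := by ring
      rw [h6, h2]
      linarith
  rcases le_total 0 x with hx | hx
  · rw [abs_of_nonneg hx]
    exact key x hx
  · rw [abs_of_nonpos hx, ← h_even x]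
    exact key (-x) (by linarith)

theorem kap_eq (γ τ : ℝ) : kap γ τ = 4 * γ / Real.pi ^ 2 * (h (2 * γ * τ))⁻¹ := rfl

theorem sinh_le (u : ℝ) (hu : 0 ≤ u) : Real.sinh u ≤ u * Real.cosh u := by
  have h1 : MonotoneOn (fun u : ℝ => u * Real.cosh u - Real.sinh u) (Ici 0) := by
    apply monotoneOn_of_deriv_nonneg (convex_Ici 0)
    · fun_prop
    · fun_prop
    · intro x hx
      rw [interior_Ici, mem_Ioi] at hx
      have h2 : HasDerivAt (fun u : ℝ => u * Real.cosh u - Real.sinh u)
          (1 * Real.cosh x + x * Real.sinh x - Real.cosh x) x :=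
        ((hasDerivAt_id x).mul (Real.hasDerivAt_cosh x)).sub (Real.hasDerivAt_sinh x)
      rw [h2.deriv]
      have := Real.sinh_pos_iff.2 hx
      nlinarith
  have h2 := h1 (Set.mem_Ici.2 le_rfl) hu hu
  simp only [Real.sinh_zero, zero_mul, sub_zero] at h2
  linarith

theorem kap_deriv (γ : ℝ) (hγ : 0 < γ) (τ : ℝ) (hτ : 0 < τ) :
    ∃ k : ℝ, k ≤ 0 ∧ HasDerivAt (kap γ) k τ := by
  have hu : 0 < 2 * γ * τ := by positivity
  have hs := Real.sinh_pos_iff.2 hu
  have h1 : HasDerivAt (fun t : ℝ => 2 * γ * t) (2 * γ) τ := by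
    simpa using (hasDerivAt_id τ).const_mul (2 * γ)
  have h2 : HasDerivAt (fun t : ℝ => Real.sinh (2 * γ * t)) (Real.cosh (2 * γ * τ) * (2 * γ)) τ :=
    (Real.hasDerivAt_sinh _).comp τ h1
  have h3 := (h1.div h2 hs.ne').const_mul (4 * γ / Real.pi ^ 2)
  refine ⟨_, ?_, h3.congr_of_eventuallyEq ?_⟩
  · apply mul_nonpos_of_nonneg_of_nonpos (by positivity)
    apply div_nonpos_of_nonpos_of_nonneg _ (by positivity)
    have := sinh_le _ hu.le
    nlinarith
  · filter_upwards [lt_mem_nhds hτ] with t ht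
    have hut : 0 < 2 * γ * t := by positivity
    rw [kap_eq, h_ne _ hut.ne', inv_div]
    rfl

theorem kapp : S_KAP := by
  intro γ hγ
  have hcont : Continuous (kap γ) := by
    show Continuous (fun τ => 4 * γ / Real.pi ^ 2 * (h (2 * γ * τ))⁻¹)
    refine continuous_const.mul (Continuous.inv₀ (h_cont.comp (by fun_prop)) ?_)
    intro τ
    exact (h_pos _).ne'
  have hpos : ∀ τ, 0 < kap γ τ := by
    intro τ
    rw [kap_eq]
    have := h_pos (2 * γ * τ)
    positivity
  have hbd : ∀ τ, kap γ τ ≤ (4 * γ / Real.pi ^ 2 * (1 + 4 * γ)) * (1 + |τ|) *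
      Real.exp (-(2 * γ * |τ|)) := by
    intro τ
    rw [kap_eq]
    have h1 := h_bound (2 * γ * τ)
    have h2 : |2 * γ * τ| = 2 * γ * |τ| := by rw [abs_mul, abs_of_pos (by positivity)]
    rw [h2] at h1
    calc 4 * γ / Real.pi ^ 2 * (h (2 * γ * τ))⁻¹ ≤
        4 * γ / Real.pi ^ 2 * ((1 + 2 * (2 * γ * |τ|)) * Real.exp (-(2 * γ * |τ|))) :=
          mul_le_mul_of_nonneg_left h1 (by positivity)
      _ ≤ 4 * γ / Real.pi ^ 2 * (((1 + 4 * γ) * (1 + |τ|)) * Real.exp (-(2 * γ * |τ|))) := by
          apply mul_le_mul_of_nonneg_left _ (by positivity)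
          apply mul_le_mul_of_nonneg_right _ (Real.exp_pos _).le
          have := abs_nonneg τ
          nlinarith
      _ = _ := by ring
  have hD : ∀ c : ℝ, 1 < c → ∃ k : ℝ, k ≤ 0 ∧ HasDerivAt (fun c => kap γ (Real.arcosh c)) k c := by
    intro c hc
    obtain ⟨k, hk, h1⟩ := kap_deriv γ hγ (Real.arcosh c) (Real.arcosh_pos hc)
    refine ⟨k * (√(c ^ 2 - 1))⁻¹, ?_, h1.comp c (Real.hasDerivAt_arcosh hc)⟩
    exact mul_nonpos_of_nonpos_of_nonneg hk (by positivity)
  have hK0 : ∀ c, 0 ≤ Kc γ c := by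
    intro c
    unfold Kc
    split_ifs with hc
    · obtain ⟨k, hk, h1⟩ := hD c hc
      rw [h1.deriv]
      apply div_nonneg (by linarith) (by positivity)
    · exact le_rfl
  refine ⟨hcont, hpos, fun τ => by rw [kap_eq, kap_eq, mul_neg, h_even], ⟨_, hbd⟩, ?_, hK0, ?_⟩
  · unfold Kc
    exact Measurable.ite measurableSet_Ioi (by fun_prop) measurable_const
  · intro c hc
    set F : ℝ → ℝ := fun x => -(kap γ (Real.arcosh x)) / (2 * Real.pi) with hF
    have h1 : ContinuousWithinAt F (Ici c) c := by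
      have e1 : ContinuousWithinAt Real.arcosh (Ici c) c :=
        (Real.continuousOn_arcosh c hc).mono (Ici_subset_Ici.2 hc)
      have e2 : ContinuousWithinAt (fun x => kap γ (Real.arcosh x)) (Ici c) c :=
        hcont.continuousAt.comp_continuousWithinAt e1
      exact e2.neg.div_const _
    have h2 : ∀ x ∈ Ioi c, HasDerivAt F (Kc γ x) x := by
      intro x hx
      have hx1 : 1 < x := lt_of_le_of_lt hc hx
      obtain ⟨k, hk, e1⟩ := hD x hx1
      unfold Kc
      rw [if_pos hx1, e1.deriv]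
      exact e1.neg.div_const _
    have h3 : Tendsto F atTop (𝓝 0) := by
      have e1 : Tendsto Real.arcosh atTop atTop := by
        refine tendsto_atTop_mono' atTop ?_ Real.tendsto_log_atTop
        filter_upwards [eventually_ge_atTop 1] with x hx
        unfold Real.arcosh
        apply Real.log_le_log (by linarith)
        have := Real.sqrt_nonneg (x ^ 2 - 1)
        linarith
      have e2 : Tendsto (kap γ) atTop (𝓝 0) := by
        have e3 : Tendsto (fun τ : ℝ => (4 * γ / Real.pi ^ 2 * (1 + 4 * γ)) * ((1 + 1 / γ) *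
            Real.exp (-(γ * τ)))) atTop (𝓝 0) := by
          have e4 : Tendsto (fun τ : ℝ => Real.exp (-(γ * τ))) atTop (𝓝 0) :=
            Real.tendsto_exp_neg_atTop_nhds_zero.comp (tendsto_id.const_mul_atTop hγ)
          have e5 := (e4.const_mul (1 + 1 / γ)).const_mul (4 * γ / Real.pi ^ 2 * (1 + 4 * γ))
          rwa [mul_zero, mul_zero] at e5
        refine squeeze_zero' (Eventually.of_forall fun τ => (hpos τ).le) ?_ e3
        filter_upwards [eventually_ge_atTop 0] with τ hτ
        refine (hbd τ).trans ?_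
        rw [abs_of_nonneg hτ, mul_assoc]
        apply mul_le_mul_of_nonneg_left _ (by positivity)
        have e6 : 1 + τ ≤ (1 + 1 / γ) * Real.exp (γ * τ) := by
          have e7 : γ * τ + 1 ≤ Real.exp (γ * τ) := Real.add_one_le_exp _
          have e8 : τ = (γ * τ) * (1 / γ) := by field_simp
          have e9 : (γ * τ) * (1 / γ) ≤ Real.exp (γ * τ) * (1 / γ) :=
            mul_le_mul_of_nonneg_right (by linarith) (by positivity)
          have e10 : 0 ≤ γ * τ := by positivity
          nlinarith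
        calc (1 + τ) * Real.exp (-(2 * γ * τ)) ≤
            ((1 + 1 / γ) * Real.exp (γ * τ)) * Real.exp (-(2 * γ * τ)) :=
              mul_le_mul_of_nonneg_right e6 (Real.exp_pos _).le
          _ = (1 + 1 / γ) * Real.exp (-(γ * τ)) := by
              rw [mul_assoc, ← Real.exp_add]
              congr 2
              ring
      have e4 := ((e2.comp e1).neg).div_const (2 * Real.pi)
      simpa using e4
    have h4 := integrableOn_Ioi_deriv_of_nonneg h1 h2 (fun x _ => hK0 x) h3
    have h5 := integral_Ioi_of_hasDerivAt_of_nonneg h1 h2 (fun x _ => hK0 x) h3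
    rw [← ofReal_integral_eq_lintegral_ofReal h4 (ae_of_all _ hK0), h5]
    congr 1
    rw [hF]
    ring

end Pool.Agent.Q251.HMK
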