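import Pool.Agent.Q76.HM.Stm

/-! Superposition of horospherical waves (lemma job POI of the project HM of helper76). -/

set_option autoImplicit false

namespace Pool.Agent.Q251.HMO

open MeasureTheory Filter Topology Set Pool.Agent.Q76.HM
open scoped ENNReal

theorem nsq (w : ℂ) : ‖w‖ ^ 2 = w.re ^ 2 + w.im ^ 2 := by
  rw [Complex.sq_norm, Complex.normSq_apply]
  ring

theorem Pk_trf (b β : ℂ) (x : ℂ × ℝ) : Pk b (trf β x) = Pk (b + β) x := by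
  have h1 : (Real.exp x.2 : ℂ) * (x.1 - β * (Real.exp (-x.2) : ℂ)) - b =
      (Real.exp x.2 : ℂ) * x.1 - (b + β) := by
    have h2 : (Real.exp x.2 : ℂ) * (Real.exp (-x.2) : ℂ) = 1 := by
      rw [← Complex.ofReal_mul, ← Real.exp_add]
      simp
    linear_combination (-β) * h2
  unfold Pk trf
  simp only
  rw [h1]

theorem exp_jf (x : ℂ × ℝ) : Real.exp (jf x).2 = (Real.exp x.2 * (1 + ‖x.1‖ ^ 2))⁻¹ := by
  have h1 : (0 : ℝ) < 1 + ‖x.1‖ ^ 2 := by positivity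
  unfold jf
  simp only
  rw [Real.exp_sub, Real.exp_log h1, Real.exp_neg, mul_inv]
  rfl

theorem Pk_jf (b : ℂ) (hb : b ≠ 0) (y : ℂ × ℝ) :
    Pk ((starRingEnd ℂ) b⁻¹) y = ‖b‖ ^ 2 * Pk b (jf y) := by
  have hn : 0 < ‖b‖ ^ 2 := by positivity
  have hre : ((starRingEnd ℂ) b⁻¹).re = b.re / ‖b‖ ^ 2 := by
    rw [Complex.conj_re, Complex.inv_re, Complex.sq_norm]
  have him : ((starRingEnd ℂ) b⁻¹).im = b.im / ‖b‖ ^ 2 := by
    rw [Complex.conj_im, Complex.inv_im, Complex.sq_norm]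
    ring
  set t : ℝ := Real.exp y.2 with ht
  have ht0 : 0 < t := Real.exp_pos _
  set t' : ℝ := Real.exp (jf y).2 with ht'
  have ht0' : 0 < t' := Real.exp_pos _
  have hz : t' * (t * (1 + ‖y.1‖ ^ 2)) = 1 := by
    rw [ht', exp_jf, ← ht]
    exact inv_mul_cancel₀ (by positivity)
  have e1 : Pk ((starRingEnd ℂ) b⁻¹) y = t / ((t * y.1.re - b.re / ‖b‖ ^ 2) ^ 2 +
      (t * y.1.im - b.im / ‖b‖ ^ 2) ^ 2 + t ^ 2) := by
    unfold Pk
    rw [nsq, ← ht, Complex.sub_re, Complex.sub_im, hre, him, Complex.re_ofReal_mul,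
      Complex.im_ofReal_mul]
  have e2 : Pk b (jf y) = t' / ((t' * y.1.re - b.re) ^ 2 + (t' * y.1.im - b.im) ^ 2 + t' ^ 2) := by
    unfold Pk
    rw [nsq, ← ht', Complex.sub_re, Complex.sub_im, Complex.re_ofReal_mul,
      Complex.im_ofReal_mul]
    rfl
  rw [e1, e2, ← mul_div_assoc, div_eq_div_iff (by positivity) (by positivity)]
  have hz2 : t' * t * (1 + (y.1.re ^ 2 + y.1.im ^ 2)) = 1 := by
    rw [← nsq]
    linarith
  obtain ⟨n, hnn⟩ : ∃ n : ℝ, n = ‖b‖ ^ 2 := ⟨_, rfl⟩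
  have hb2 : n = b.re ^ 2 + b.im ^ 2 := by rw [hnn, nsq]
  rw [← hnn] at hn ⊢
  obtain ⟨u, hu⟩ : ∃ u : ℝ, u = b.re / n := ⟨_, rfl⟩
  obtain ⟨v, hv⟩ : ∃ v : ℝ, v = b.im / n := ⟨_, rfl⟩
  have hu' : b.re = n * u := by rw [hu]; field_simp
  have hv' : b.im = n * v := by rw [hv]; field_simp
  rw [← hu, ← hv]
  rw [hu', hv'] at hb2 ⊢
  have hb3 : n * (u ^ 2 + v ^ 2) = 1 := by
    have : n * (n * (u ^ 2 + v ^ 2)) = n * 1 := by linarith
    exact mul_left_cancel₀ hn.ne' this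
  linear_combination (t' - n * t) * hz2 + (n * t - t') * hb3

/-- the change of variables `b ↦ 1 / b` -/
theorem inv_cv (H : ℂ → ℝ≥0∞) :
    ∫⁻ c : ℂ, H c = ∫⁻ b in ({0}ᶜ : Set ℂ), ENNReal.ofReal ((‖b‖ ^ 2)⁻¹ ^ 2) * H b⁻¹ := by
  have h1 : (fun b : ℂ => b⁻¹) '' ({0}ᶜ : Set ℂ) = {0}ᶜ := by
    ext c
    constructor
    · rintro ⟨b, hb, rfl⟩
      exact inv_ne_zero hb
    · intro hc
      exact ⟨c⁻¹, inv_ne_zero hc, inv_inv c⟩
  have h2 : ∫⁻ c : ℂ, H c = ∫⁻ c in ({0}ᶜ : Set ℂ), H c := by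
    rw [← setLIntegral_univ]
    apply setLIntegral_congr
    rw [ae_eq_comm, ae_eq_univ, compl_compl]
    exact measure_singleton 0
  have hder : ∀ b ∈ ({0}ᶜ : Set ℂ), HasFDerivWithinAt (fun b : ℂ => b⁻¹)
      ((-(b ^ 2)⁻¹ : ℂ) • (1 : ℂ →L[ℝ] ℂ)) ({0}ᶜ) b := by
    intro b hb
    exact (hasDerivAt_inv hb).complexToReal_fderiv.hasFDerivWithinAt
  have hdet : ∀ z : ℂ, (z • (1 : ℂ →L[ℝ] ℂ)).det = ‖z‖ ^ 2 := by
    intro z
    have e1 : (z • (1 : ℂ →L[ℝ] ℂ)).det = LinearMap.det (Algebra.lmul ℝ ℂ z) := by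
      unfold ContinuousLinearMap.det
      congr 1
    rw [e1, ← Algebra.norm_apply, Algebra.norm_complex_apply, Complex.sq_norm]
  have h3 := lintegral_image_eq_lintegral_abs_det_fderiv_mul (volume : Measure ℂ)
    (measurableSet_singleton (0 : ℂ)).compl hder (fun x _ y _ h => inv_injective h) H
  rw [h1] at h3
  rw [h2, h3]
  apply setLIntegral_congr_fun (measurableSet_singleton (0 : ℂ)).compl
  intro b _
  simp only
  rw [hdet, norm_neg, norm_inv, norm_pow, abs_of_nonneg (by positivity)]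

/-- the superposition -/
noncomputable def Sp (Ψ : ℝ → ℝ≥0∞) (y₀ y : ℂ × ℝ) : ℝ≥0∞ :=
  ∫⁻ b : ℂ, ENNReal.ofReal (Pk b y₀ ^ 2) * Ψ (Real.log (Pk b y) - Real.log (Pk b y₀))

theorem Sp_trf (Ψ : ℝ → ℝ≥0∞) (y₀ y : ℂ × ℝ) (β : ℂ) : Sp Ψ (trf β y₀) (trf β y) = Sp Ψ y₀ y := by
  unfold Sp
  simp_rw [Pk_trf]
  exact lintegral_add_right_eq_self
    (fun b => ENNReal.ofReal (Pk b y₀ ^ 2) * Ψ (Real.log (Pk b y) - Real.log (Pk b y₀))) β

theorem Pk_pos (b : ℂ) (x : ℂ × ℝ) : 0 < Pk b x := by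
  unfold Pk
  positivity

theorem Sp_jf (Ψ : ℝ → ℝ≥0∞) (y₀ y : ℂ × ℝ) : Sp Ψ (jf y₀) (jf y) = Sp Ψ y₀ y := by
  unfold Sp
  set K : ℂ → ℝ≥0∞ := fun b =>
    ENNReal.ofReal (Pk b y₀ ^ 2) * Ψ (Real.log (Pk b y) - Real.log (Pk b y₀)) with hK
  have h1 : ∫⁻ c : ℂ, K c = ∫⁻ c : ℂ, K ((starRingEnd ℂ) c) := by
    have := (Complex.conjLIE.measurePreserving).lintegral_comp_emb
      (Complex.conjLIE.toHomeomorph.measurableEmbedding) K
    exact this.symm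
  rw [h1, inv_cv (fun c => K ((starRingEnd ℂ) c)), ← setLIntegral_univ]
  have h2 : (univ : Set ℂ) =ᵐ[volume] ({0}ᶜ : Set ℂ) := by
    rw [ae_eq_comm, ae_eq_univ, compl_compl]
    exact measure_singleton 0
  rw [setLIntegral_congr h2]
  apply setLIntegral_congr_fun (measurableSet_singleton (0 : ℂ)).compl
  intro b hb
  have hb0 : b ≠ 0 := hb
  simp only [hK]
  rw [Pk_jf b hb0 y₀, Pk_jf b hb0 y]
  have hn : 0 < ‖b‖ ^ 2 := by positivity
  rw [Real.log_mul hn.ne' (Pk_pos _ _).ne', Real.log_mul hn.ne' (Pk_pos _ _).ne', ← mul_assoc,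
    ← ENNReal.ofReal_mul (by positivity)]
  congr 2
  · field_simp
  · ring

theorem line (h1 : S_POV) (Ψ : ℝ → ℝ≥0∞) (hΨ : Measurable Ψ) (y₀ y : ℂ × ℝ)
    (hl : (Real.exp y₀.2 : ℂ) * y₀.1 = (Real.exp y.2 : ℂ) * y.1) (hch : 1 < ch y₀ y) :
    Sp Ψ y₀ y =
      ENNReal.ofReal (Real.pi / (2 * Real.sinh (Real.arcosh (ch y₀ y)))) *
        ∫⁻ τ in Icc (-Real.arcosh (ch y₀ y)) (Real.arcosh (ch y₀ y)),
          ENNReal.ofReal (Real.exp (-τ)) * Ψ τ := by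
  have h2 : ch y₀ y = Real.cosh |y.2 - y₀.2| := by
    unfold ch
    rw [hl, sub_self, norm_zero, Real.cosh_abs, Real.cosh_eq]
    rw [show Real.exp (y.2 - y₀.2) = Real.exp y.2 / Real.exp y₀.2 by rw [Real.exp_sub],
      show Real.exp (-(y.2 - y₀.2)) = Real.exp y₀.2 / Real.exp y.2 by
        rw [neg_sub, Real.exp_sub]]
    have := Real.exp_pos y.2
    have := Real.exp_pos y₀.2
    field_simp
    ring
  have h3 : y₀.2 ≠ y.2 := by
    intro h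
    rw [h2, h, sub_self, abs_zero, Real.cosh_zero] at hch
    exact lt_irrefl _ hch
  rw [h2, Real.arcosh_cosh (abs_nonneg _)]
  have h4 := h1 ((Real.exp y₀.2 : ℂ) * y₀.1) y₀.2 y.2 h3 Ψ hΨ
  rw [← h4]
  unfold Sp Pk
  rw [← hl]

theorem poi (h1 : S_POV) (h2 : S_ISO) : S_POI := by
  intro y₀ y hch Ψ hΨ
  obtain ⟨-, -, ht, hj, -⟩ := h2
  show Sp Ψ y₀ y = _
  by_cases hl : (Real.exp y₀.2 : ℂ) * y₀.1 = (Real.exp y.2 : ℂ) * y.1
  · exact line h1 Ψ hΨ y₀ y hl hch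
  · set x₀ : ℂ := (Real.exp y₀.2 : ℂ) * y₀.1 with hx₀
    set x : ℂ := (Real.exp y.2 : ℂ) * y.1 with hx
    set t₀ : ℝ := Real.exp y₀.2 with ht₀
    set t : ℝ := Real.exp y.2 with htt
    have ht₀0 : 0 < t₀ := Real.exp_pos _
    have ht0 : 0 < t := Real.exp_pos _
    set δ : ℝ := ‖x - x₀‖ ^ 2 with hδ
    have hδ0 : 0 < δ := by
      have : x - x₀ ≠ 0 := fun h => hl (sub_eq_zero.1 h).symm
      positivity
    -- the root
    obtain ⟨μ, hμ⟩ : ∃ μ : ℝ, -δ * μ ^ 2 + μ * (δ + t ^ 2 - t₀ ^ 2) + t₀ ^ 2 = 0 := by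
      set B : ℝ := δ + t ^ 2 - t₀ ^ 2 with hB
      have hd : 0 ≤ B ^ 2 + 4 * δ * t₀ ^ 2 := by positivity
      refine ⟨(B + √(B ^ 2 + 4 * δ * t₀ ^ 2)) / (2 * δ), ?_⟩
      have h3 := Real.sq_sqrt hd
      set r := √(B ^ 2 + 4 * δ * t₀ ^ 2) with hr
      field_simp
      nlinarith
    set β : ℂ := x₀ + (μ : ℂ) * (x - x₀) with hβ
    rw [← Sp_trf Ψ y₀ y β, ← Sp_jf, ← ht β y₀ y, ← hj (trf β y₀) (trf β y)]
    apply line h1 Ψ hΨ
    · -- the same vertical line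
      have hA : ∀ w : ℂ × ℝ, (Real.exp (jf (trf β w)).2 : ℂ) * (jf (trf β w)).1 =
          ((Real.exp w.2 : ℂ) * w.1 - β) / ((‖(Real.exp w.2 : ℂ) * w.1 - β‖ ^ 2 + Real.exp w.2 ^ 2 : ℝ) : ℂ) := by
        intro w
        rw [exp_jf]
        have e1 : (trf β w).2 = w.2 := rfl
        have e2 : (trf β w).1 = w.1 - β * (Real.exp (-w.2) : ℂ) := rfl
        have e3 : (jf (trf β w)).1 = (trf β w).1 := rfl
        have hw : 0 < Real.exp w.2 := Real.exp_pos _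
        have e4 : (Real.exp w.2 : ℂ) * w.1 - β = (Real.exp w.2 : ℂ) * (trf β w).1 := by
          rw [e2]
          have h2 : (Real.exp w.2 : ℂ) * (Real.exp (-w.2) : ℂ) = 1 := by
            rw [← Complex.ofReal_mul, ← Real.exp_add]
            simp
          linear_combination β * h2
        rw [e1, e3, e4]
        set v : ℂ := (trf β w).1 with hv
        have e5 : ‖(Real.exp w.2 : ℂ) * v‖ ^ 2 + Real.exp w.2 ^ 2 =
            Real.exp w.2 * (Real.exp w.2 * (1 + ‖v‖ ^ 2)) := by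
          rw [norm_mul, Complex.norm_real, Real.norm_of_nonneg hw.le]
          ring
        rw [e5]
        have e6 : (Real.exp w.2 : ℂ) ≠ 0 := by
          exact_mod_cast hw.ne'
        rw [Complex.ofReal_mul (Real.exp w.2) (Real.exp w.2 * (1 + ‖v‖ ^ 2)), mul_div_mul_left _ _ e6,
          Complex.ofReal_inv, inv_mul_eq_div]
      rw [hA, hA, ← ht₀, ← htt, ← hx₀, ← hx]
      have e1 : x₀ - β = -(μ : ℂ) * (x - x₀) := by rw [hβ]; ring
      have e2 : x - β = (1 - (μ : ℂ)) * (x - x₀) := by rw [hβ]; ring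
      have e3 : ‖x₀ - β‖ ^ 2 = μ ^ 2 * δ := by
        rw [e1, norm_mul, norm_neg, Complex.norm_real, mul_pow, Real.norm_eq_abs, sq_abs]
      have e4 : ‖x - β‖ ^ 2 = (1 - μ) ^ 2 * δ := by
        rw [e2, norm_mul, mul_pow, ← Complex.ofReal_one, ← Complex.ofReal_sub, Complex.norm_real,
          Real.norm_eq_abs, sq_abs]
      rw [e3, e4, e1, e2]
      have p1 : 0 < μ ^ 2 * δ + t₀ ^ 2 := by positivity
      have p2 : 0 < (1 - μ) ^ 2 * δ + t ^ 2 := by positivity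
      have q1 : ((μ ^ 2 * δ + t₀ ^ 2 : ℝ) : ℂ) ≠ 0 := by exact_mod_cast p1.ne'
      have q2 : (((1 - μ) ^ 2 * δ + t ^ 2 : ℝ) : ℂ) ≠ 0 := by exact_mod_cast p2.ne'
      rw [div_eq_div_iff q1 q2]
      have hμ' : (-(δ : ℂ) * (μ : ℂ) ^ 2 + (μ : ℂ) * ((δ : ℂ) + (t : ℂ) ^ 2 - (t₀ : ℂ) ^ 2) +
          (t₀ : ℂ) ^ 2) = 0 := by exact_mod_cast congrArg (fun r : ℝ => (r : ℂ)) hμ
      push_cast
      linear_combination (-(x - x₀)) * hμ'
    · rw [hj, ht]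
      exact hch

end Pool.Agent.Q251.HMO
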