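import Pool.Agent.Q76.HM.Stm

/-! Superposition of horospherical waves (lemma job POV of the project HM of helper76). -/

set_option autoImplicit false

namespace Pool.Agent.Q251.HMP

open MeasureTheory Filter Topology Set Pool.Agent.Q76.HM
open scoped ENNReal

/-- integrals of radial functions in the plane -/
theorem radial (G : ℝ → ℝ≥0∞) (hG : Measurable G) :
    ∫⁻ b : ℂ, G (‖b‖ ^ 2) = ENNReal.ofReal Real.pi * ∫⁻ v in Ioi (0 : ℝ), G v := by
  have h1 : ∫⁻ v in Ioi (0 : ℝ), G v = 2 * ∫⁻ r in Ioi (0 : ℝ), ENNReal.ofReal r * G (r ^ 2) := by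
    have h2 : (fun r : ℝ => r ^ 2) '' Ioi 0 = Ioi 0 := by
      ext v
      constructor
      · rintro ⟨r, hr, rfl⟩
        exact pow_pos (mem_Ioi.1 hr) 2
      · intro hv
        exact ⟨√v, Real.sqrt_pos.2 hv, Real.sq_sqrt (le_of_lt hv)⟩
    have h3 := lintegral_image_eq_lintegral_abs_deriv_mul (f := fun r : ℝ => r ^ 2)
      (f' := fun r => 2 * r) (s := Ioi (0 : ℝ)) measurableSet_Ioi (fun x _ => by
        have := (hasDerivAt_pow 2 x).hasDerivWithinAt (s := Ioi 0)
        simpa using this) (fun x hx y hy hxy =>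
          (pow_left_inj₀ (le_of_lt hx) (le_of_lt hy) (by norm_num)).1 hxy) G
    rw [h2] at h3
    rw [h3, ← lintegral_const_mul _ (by fun_prop)]
    apply setLIntegral_congr_fun measurableSet_Ioi
    intro r hr
    have hr0 : (0 : ℝ) < r := hr
    simp only
    rw [abs_of_pos (by positivity), ENNReal.ofReal_mul (by norm_num), mul_assoc]
    congr 1
    simp
  rw [← Complex.lintegral_comp_polarCoord_symm]
  have h2 : ∫⁻ p in polarCoord.target, ENNReal.ofReal p.1 • G (‖Complex.polarCoord.symm p‖ ^ 2) =
      ∫⁻ p in (Ioi (0 : ℝ)) ×ˢ (Ioo (-Real.pi) Real.pi), (ENNReal.ofReal p.1 * G (p.1 ^ 2)) * 1 := by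
    rw [polarCoord_target]
    apply lintegral_congr
    intro p
    rw [Complex.norm_polarCoord_symm, sq_abs, smul_eq_mul, mul_one]
  rw [h2, Measure.volume_eq_prod, ← Measure.prod_restrict,
    lintegral_prod_mul (f := fun r => ENNReal.ofReal r * G (r ^ 2)) (g := fun _ => 1)
      (by fun_prop) (by fun_prop)]
  rw [h1, lintegral_const, Measure.restrict_apply MeasurableSet.univ, univ_inter, Real.volume_Ioo,
    one_mul, sub_neg_eq_add, ← two_mul, ENNReal.ofReal_mul (by norm_num)]
  simp only [ENNReal.ofReal_ofNat]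
  ring

/-- the change of variables -/
theorem sig (s₀ s : ℝ) (hs : s₀ ≠ s) (Ψ : ℝ → ℝ≥0∞) :
    ∫⁻ v in Ioi (0 : ℝ), ENNReal.ofReal ((Real.exp s₀ / (v + Real.exp s₀ ^ 2)) ^ 2) *
      Ψ (Real.log (Real.exp s / (v + Real.exp s ^ 2)) -
        Real.log (Real.exp s₀ / (v + Real.exp s₀ ^ 2))) =
      ENNReal.ofReal (1 / (2 * Real.sinh |s - s₀|)) *
        ∫⁻ τ in Icc (-|s - s₀|) |s - s₀|, ENNReal.ofReal (Real.exp (-τ)) * Ψ τ := by
  set A : ℝ := Real.exp s ^ 2 with hA
  set B : ℝ := Real.exp s₀ ^ 2 with hB
  have hA0 : 0 < A := by positivity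
  have hB0 : 0 < B := by positivity
  set σ : ℝ → ℝ := fun v => Real.log (Real.exp s / (v + A)) - Real.log (Real.exp s₀ / (v + B)) with hσ
  have hr : 0 < |s - s₀| := abs_pos.2 (sub_ne_zero.2 hs.symm)
  have hσ1 : ∀ v, 0 < v → σ v = s - s₀ - Real.log ((v + A) / (v + B)) := by
    intro v hv
    rw [hσ]
    simp only
    rw [Real.log_div (Real.exp_pos s).ne' (by positivity), Real.log_div (Real.exp_pos s₀).ne' (by positivity),
      Real.log_div (by positivity) (by positivity), Real.log_exp, Real.log_exp]
    ring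
  have hder : ∀ v ∈ Ioi (0 : ℝ), HasDerivWithinAt σ (1 / (v + B) - 1 / (v + A)) (Ioi 0) v := by
    intro v hv
    have hv0 : (0 : ℝ) < v := hv
    have e1 : HasDerivAt (fun v => Real.log (v + A)) (1 / (v + A)) v :=
      ((hasDerivAt_id v).add_const A).log (by simp only [id]; positivity)
    have e2 : HasDerivAt (fun v => Real.log (v + B)) (1 / (v + B)) v :=
      ((hasDerivAt_id v).add_const B).log (by simp only [id]; positivity)
    have e3 := ((e2.sub e1).const_add (s - s₀)).hasDerivWithinAt (s := Ioi 0)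
    refine e3.congr ?_ ?_
    · intro w hw
      have hw0 : (0 : ℝ) < w := hw
      rw [hσ1 w hw0, Real.log_div (by positivity) (by positivity)]
      simp only [Pi.sub_apply]
      ring
    · rw [hσ1 v hv0, Real.log_div (by positivity) (by positivity)]
      simp only [Pi.sub_apply]
      ring
  have hAB : A ≠ B := by
    rw [hA, hB]
    intro h
    have h1 := (pow_left_inj₀ (Real.exp_pos s).le (Real.exp_pos s₀).le (by norm_num)).1 h
    exact hs (Real.exp_injective h1).symm
  have hinj : InjOn σ (Ioi 0) := by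
    intro v hv w hw h
    have hv0 : (0 : ℝ) < v := hv
    have hw0 : (0 : ℝ) < w := hw
    rw [hσ1 v hv0, hσ1 w hw0] at h
    have h1 : Real.log ((v + A) / (v + B)) = Real.log ((w + A) / (w + B)) := by linarith
    have h2 := Real.log_injOn_pos (mem_Ioi.2 (by positivity)) (mem_Ioi.2 (by positivity)) h1
    rw [div_eq_div_iff (by positivity) (by positivity)] at h2
    have h3 : (v - w) * (A - B) = 0 := by linarith
    rcases mul_eq_zero.1 h3 with h4 | h4
    · linarith
    · exact absurd (sub_eq_zero.1 h4) hAB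
  have hAe : A = Real.exp (2 * s) := by rw [hA, ← Real.exp_nat_mul]; norm_num
  have hBe : B = Real.exp (2 * s₀) := by rw [hB, ← Real.exp_nat_mul]; norm_num
  have himg : σ '' Ioi 0 = Ioo (-|s - s₀|) |s - s₀| := by
    ext τ
    constructor
    · rintro ⟨v, hv, rfl⟩
      have hv0 : (0 : ℝ) < v := hv
      rw [hσ1 v hv0]
      rcases lt_or_gt_of_ne hs with hlt | hgt
      · -- s₀ < s
        rw [abs_of_pos (by linarith)]
        have hBA : B < A := by
          rw [hAe, hBe]
          exact Real.exp_lt_exp.2 (by linarith)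
        have h1 : 0 < Real.log ((v + A) / (v + B)) := by
          apply Real.log_pos
          rw [one_lt_div (by positivity)]
          linarith
        have h2 : Real.log ((v + A) / (v + B)) < 2 * s - 2 * s₀ := by
          rw [Real.log_lt_iff_lt_exp (by positivity), Real.exp_sub, ← hAe, ← hBe,
            div_lt_div_iff₀ (by positivity) hB0]
          nlinarith
        exact ⟨by linarith, by linarith⟩
      · rw [abs_of_neg (by linarith)]
        have hBA : A < B := by
          rw [hAe, hBe]
          exact Real.exp_lt_exp.2 (by linarith)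
        have h1 : Real.log ((v + A) / (v + B)) < 0 := by
          apply Real.log_neg (by positivity)
          rw [div_lt_one (by positivity)]
          linarith
        have h2 : 2 * s - 2 * s₀ < Real.log ((v + A) / (v + B)) := by
          rw [Real.lt_log_iff_exp_lt (by positivity), Real.exp_sub, ← hAe, ← hBe,
            div_lt_div_iff₀ hB0 (by positivity)]
          nlinarith
        exact ⟨by linarith, by linarith⟩
    · rintro ⟨h1, h2⟩
      set q : ℝ := Real.exp (s - s₀ - τ) with hq
      have hq0 : 0 < q := Real.exp_pos _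
      have key : ∀ v : ℝ, 0 < v → v * (1 - q) = q * B - A → σ v = τ := by
        intro v hv h
        rw [hσ1 v hv]
        have h3 : (v + A) / (v + B) = q := by
          rw [div_eq_iff (by positivity)]
          linarith
        rw [h3, hq, Real.log_exp]
        ring
      rcases lt_or_gt_of_ne hs with hlt | hgt
      · rw [abs_of_pos (by linarith)] at h1 h2
        have hq1 : 1 < q := by
          rw [hq]
          exact Real.one_lt_exp_iff.2 (by linarith)
        have hqB : q * B < A := by
          rw [hq, hAe, hBe, ← Real.exp_add]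
          exact Real.exp_lt_exp.2 (by linarith)
        refine ⟨(q * B - A) / (1 - q), ?_, ?_⟩
        · show 0 < (q * B - A) / (1 - q)
          exact div_pos_of_neg_of_neg (by linarith) (by linarith)
        · apply key
          · exact div_pos_of_neg_of_neg (by linarith) (by linarith)
          · exact div_mul_cancel₀ _ (by linarith)
      · rw [abs_of_neg (by linarith)] at h1 h2
        have hq1 : q < 1 := by
          rw [hq, ← Real.exp_zero]
          exact Real.exp_lt_exp.2 (by linarith)
        have hqB : A < q * B := by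
          rw [hq, hAe, hBe, ← Real.exp_add]
          exact Real.exp_lt_exp.2 (by linarith)
        refine ⟨(q * B - A) / (1 - q), ?_, ?_⟩
        · show 0 < (q * B - A) / (1 - q)
          exact div_pos (by linarith) (by linarith)
        · apply key
          · exact div_pos (by linarith) (by linarith)
          · exact div_mul_cancel₀ _ (by linarith)
  have h1 := lintegral_image_eq_lintegral_abs_deriv_mul (f := σ)
    (f' := fun v => 1 / (v + B) - 1 / (v + A)) measurableSet_Ioi hder hinj
    (fun τ => ENNReal.ofReal (Real.exp (-τ)) * Ψ τ)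
  rw [himg] at h1
  rw [← setLIntegral_congr Ioo_ae_eq_Icc, h1, ← lintegral_const_mul' _ _ ENNReal.ofReal_ne_top]
  apply setLIntegral_congr_fun measurableSet_Ioi
  intro v hv
  have hv0 : (0 : ℝ) < v := hv
  simp only
  rw [← mul_assoc, ← mul_assoc, ← ENNReal.ofReal_mul (by positivity),
    ← ENNReal.ofReal_mul (by positivity)]
  congr 2
  -- the identity of the densities
  have e1 : Real.exp (-σ v) = Real.exp (s₀ - s) * ((v + A) / (v + B)) := by
    rw [hσ1 v hv0, show -(s - s₀ - Real.log ((v + A) / (v + B))) =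
      (s₀ - s) + Real.log ((v + A) / (v + B)) by ring, Real.exp_add, Real.exp_log (by positivity)]
  have e2 : |1 / (v + B) - 1 / (v + A)| = |A - B| / ((v + A) * (v + B)) := by
    rw [div_sub_div _ _ (by positivity) (by positivity), abs_div,
      abs_of_pos (show 0 < (v + B) * (v + A) by positivity)]
    congr 1
    · congr 1
      ring
    · ring
  have e3 : |A - B| = Real.exp (s + s₀) * (2 * Real.sinh |s - s₀|) := by
    rw [Real.sinh_eq]
    rcases lt_or_gt_of_ne hs with hlt | hgt
    · have hBA : B < A := by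
        rw [hAe, hBe]
        exact Real.exp_lt_exp.2 (by linarith)
      rw [abs_of_pos (by linarith), abs_of_pos (show 0 < s - s₀ by linarith), hAe, hBe]
      rw [show Real.exp (s + s₀) * (2 * ((Real.exp (s - s₀) - Real.exp (-(s - s₀))) / 2)) =
        Real.exp (s + s₀) * Real.exp (s - s₀) - Real.exp (s + s₀) * Real.exp (-(s - s₀)) by ring,
        ← Real.exp_add, ← Real.exp_add]
      congr 2 <;> ring
    · have hBA : A < B := by
        rw [hAe, hBe]
        exact Real.exp_lt_exp.2 (by linarith)
      rw [abs_of_neg (by linarith), abs_of_neg (show s - s₀ < 0 by linarith), hAe, hBe]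
      rw [show Real.exp (s + s₀) * (2 * ((Real.exp (-(s - s₀)) - Real.exp (-(-(s - s₀)))) / 2)) =
        Real.exp (s + s₀) * Real.exp (-(s - s₀)) - Real.exp (s + s₀) * Real.exp (-(-(s - s₀))) by ring,
        ← Real.exp_add, ← Real.exp_add, neg_sub]
      congr 2 <;> ring
  have hsh : 0 < Real.sinh |s - s₀| := Real.sinh_pos_iff.2 hr
  rw [e1, e2, e3]
  have e4 : Real.exp (s + s₀) * Real.exp (s₀ - s) = B := by
    rw [hBe, ← Real.exp_add]
    congr 1
    ring
  have e5 : (Real.exp s₀ / (v + B)) ^ 2 = B / (v + B) ^ 2 := by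
    rw [div_pow]
  rw [e5]
  rw [← e4]
  field_simp

theorem pov : S_POV := by
  intro c s₀ s hs Ψ hΨ
  have h0 : ∀ F : ℝ → ℝ≥0∞, ∫⁻ b : ℂ, F (‖c - b‖ ^ 2) = ∫⁻ b : ℂ, F (‖b‖ ^ 2) := fun F =>
    lintegral_sub_left_eq_self (fun b : ℂ => F (‖b‖ ^ 2)) c
  refine (h0 (fun v => ENNReal.ofReal ((Real.exp s₀ / (v + Real.exp s₀ ^ 2)) ^ 2) *
      Ψ (Real.log (Real.exp s / (v + Real.exp s ^ 2)) -
        Real.log (Real.exp s₀ / (v + Real.exp s₀ ^ 2))))).trans ?_
  refine (radial (fun v => ENNReal.ofReal ((Real.exp s₀ / (v + Real.exp s₀ ^ 2)) ^ 2) *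
      Ψ (Real.log (Real.exp s / (v + Real.exp s ^ 2)) -
        Real.log (Real.exp s₀ / (v + Real.exp s₀ ^ 2)))) (by fun_prop)).trans ?_
  rw [sig s₀ s hs Ψ, ← mul_assoc, ← ENNReal.ofReal_mul Real.pi_pos.le]
  congr 2
  ring

end Pool.Agent.Q251.HMP
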