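import Mathlib

/-!
Sums of positive powers of the initial primes: the interval argument.
-/

set_option autoImplicit false

namespace Q251.IP

open Finset

/-- The `j`-th prime, starting with `p 0 = 2`. -/
noncomputable def p (j : ℕ) : ℕ := Nat.nth Nat.Prime j

lemma p_prime (j : ℕ) : (p j).Prime := Nat.nth_mem_of_infinite Nat.infinite_setOfPred_prime j

lemma p_strictMono : StrictMono p := Nat.nth_strictMono Nat.infinite_setOfPred_prime

lemma p_zero : p 0 = 2 := Nat.nth_prime_zero_eq_two

lemma p_one : p 1 = 3 := Nat.nth_prime_one_eq_three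

lemma p_count (j : ℕ) : Nat.count Nat.Prime (p j) = j := Nat.count_nth_of_infinite Nat.infinite_setOfPred_prime j

lemma p_odd {j : ℕ} (hj : 1 ≤ j) : p j % 2 = 1 := by
  have h1 : p 0 < p j := p_strictMono (by omega)
  rw [p_zero] at h1
  rcases (p_prime j).eq_two_or_odd with h | h
  · omega
  · exact h

lemma p_lower (j : ℕ) : 2 * (j + 1) + 1 ≤ p (j + 1) := by
  induction j with
  | zero => rw [p_one]
  | succ j ih =>
    have h1 : p (j + 1) < p (j + 1 + 1) := p_strictMono (by omega)
    have h2 := p_odd (j := j + 1) (by omega)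
    have h3 := p_odd (j := j + 1 + 1) (by omega)
    omega

/-- The sums of positive powers of the first `L` primes. -/
def R (L : ℕ) : Set ℕ := {n | ∃ a : ℕ → ℕ, (∀ j, 1 ≤ a j) ∧ ∑ j ∈ range L, p j ^ a j = n}

lemma R_step {L n e : ℕ} (he : 1 ≤ e) (hn : n ∈ R L) : n + p L ^ e ∈ R (L + 1) := by
  obtain ⟨a, ha, hs⟩ := hn
  refine ⟨fun j => if j = L then e else a j, fun j => ?_, ?_⟩
  · dsimp only
    split_ifs
    · exact he
    · exact ha j
  · rw [sum_range_succ]
    have e1 : ∑ j ∈ range L, p j ^ (if j = L then e else a j) = n := by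
      rw [← hs]
      apply sum_congr rfl
      intro j hj
      rw [mem_range] at hj
      rw [if_neg (by omega)]
    simp only [if_true]
    rw [e1]

/-- All `n ≡ lo` modulo `2` between `lo` and `hi` are in `R L`. -/
def Good (L lo hi : ℕ) : Prop := lo % 2 = hi % 2 ∧ ∀ n, lo ≤ n → n ≤ hi → n % 2 = lo % 2 → n ∈ R L

lemma Good_step {L lo hi : ℕ} (hL : 1 ≤ L) (h : Good L lo hi) (hc : p L ^ 2 + lo ≤ hi + p L + 2) :
    Good (L + 1) (lo + p L) (hi + p L ^ 2) := by
  have hp := p_odd hL
  have hp2 : p L ^ 2 % 2 = 1 := by rw [Nat.pow_mod, hp]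
  obtain ⟨h1, h2⟩ := h
  refine ⟨by omega, fun n hn1 hn2 hn3 => ?_⟩
  rcases Nat.lt_or_ge (hi + p L) n with hlt | hge
  · have hn4 : lo + p L ^ 2 ≤ n := by omega
    have h3 := R_step (e := 2) (by norm_num) (h2 (n - p L ^ 2) (by omega) (by omega) (by omega))
    rwa [Nat.sub_add_cancel (by omega)] at h3
  · have h3 := R_step (e := 1) (by norm_num) (h2 (n - p L) (by omega) (by omega) (by omega))
    rwa [pow_one, Nat.sub_add_cancel (by omega)] at h3

/-- The lower ends of the intervals. -/
noncomputable def lo (k : ℕ) : ℕ := 144 + ∑ j ∈ range k, p (5 + j)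

/-- The upper ends of the intervals. -/
noncomputable def hi (k : ℕ) : ℕ := 302 + ∑ j ∈ range k, p (5 + j) ^ 2

lemma lo_le_hi (k : ℕ) : lo k ≤ hi k := by
  unfold lo hi
  have : ∑ j ∈ range k, p (5 + j) ≤ ∑ j ∈ range k, p (5 + j) ^ 2 :=
    sum_le_sum fun j _ => Nat.le_self_pow (by norm_num) _
  omega

/-- The inequality which is needed for the induction. -/
def Key (k : ℕ) : Prop := p (5 + k) ^ 2 + lo k ≤ hi k + p (5 + k) + 2

lemma Good_all (h0 : Good 5 144 302) (hk : ∀ k, Key k) (k : ℕ) : Good (5 + k) (lo k) (hi k) := by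
  induction k with
  | zero => simpa [lo, hi] using h0
  | succ k ih =>
    have h1 := Good_step (L := 5 + k) (by omega) ih (hk k)
    have e1 : lo (k + 1) = lo k + p (5 + k) := by
      unfold lo
      rw [sum_range_succ]
      ring
    have e2 : hi (k + 1) = hi k + p (5 + k) ^ 2 := by
      unfold hi
      rw [sum_range_succ]
      ring
    rw [e1, e2]
    exact h1


/-- The sum of `q ^ 2 - q` over the primes from `13` to the one before `p (5 + k)`. -/
noncomputable def S (k : ℕ) : ℕ := ∑ j ∈ range k, (p (5 + j) ^ 2 - p (5 + j))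

lemma hi_eq (k : ℕ) : hi k = lo k + 158 + S k := by
  unfold hi lo S
  have : ∑ j ∈ range k, p (5 + j) ^ 2 = ∑ j ∈ range k, (p (5 + j) ^ 2 - p (5 + j)) + ∑ j ∈ range k, p (5 + j) := by
    rw [← sum_add_distrib]
    apply sum_congr rfl
    intro j _
    rw [Nat.sub_add_cancel (Nat.le_self_pow (by norm_num) _)]
  omega

lemma key_of (k : ℕ) (h : p (5 + k) ^ 2 ≤ p (5 + k) + (160 + S k)) : Key k := by
  unfold Key
  rw [hi_eq]
  omega

lemma p_five : p 5 = 13 := by
  have h : Nat.count Nat.Prime 13 = 5 := by decide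
  have h2 := Nat.nth_count (p := Nat.Prime) (n := 13) (by norm_num)
  rw [h] at h2
  exact h2

lemma S_ge (k : ℕ) (T : Finset ℕ) (hT : ∀ q ∈ T, q.Prime ∧ 13 ≤ q ∧ q < p (5 + k)) :
    ∑ q ∈ T, (q ^ 2 - q) ≤ S k := by
  unfold S
  have hinj : Set.InjOn (fun j => p (5 + j)) (range k : Set ℕ) := by
    intro a _ b _ hab
    have := p_strictMono.injective hab
    omega
  rw [← sum_image (f := fun q => q ^ 2 - q) (g := fun j => p (5 + j)) hinj]
  apply sum_le_sum_of_subset
  intro q hq
  obtain ⟨h1, h2, h3⟩ := hT q hq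
  have h4 : p (Nat.count Nat.Prime q) = q := Nat.nth_count h1
  rw [← h4] at h3 h2
  rw [← p_five] at h2
  have h5 := p_strictMono.le_iff_le.1 h2
  have h6 := p_strictMono.lt_iff_lt.1 h3
  rw [mem_image]
  refine ⟨Nat.count Nat.Prime q - 5, ?_, ?_⟩
  · rw [mem_range]; omega
  · rw [Nat.add_sub_cancel' h5, h4]

lemma mul_mono {x q : ℕ} (hxq : x ≤ q) (t : ℕ) (h : q ^ 2 ≤ q + t) : x ^ 2 ≤ x + t := by
  obtain ⟨d, rfl⟩ := Nat.exists_eq_add_of_le hxq
  rcases Nat.eq_zero_or_pos x with rfl | hx
  · simp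
  · nlinarith [Nat.zero_le (d * x), Nat.zero_le (d * d)]

lemma key_small (k : ℕ) (h : p (5 + k) ≤ 2503) : Key k := by
  apply key_of
  generalize hx : p (5 + k) = x at h
  rcases Nat.lt_or_ge 13 x with h0 | h0
  swap
  · exact mul_mono h0 (160 + S k) (by norm_num; omega)
  rcases Nat.lt_or_ge 17 x with h1 | h1
  swap
  · have hT := S_ge k {13} (by
      rw [hx]
      intro q hq
      simp only [mem_insert, mem_singleton] at hq
      obtain rfl := hq; exact ⟨by norm_num, by norm_num, by omega⟩)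
    have hS : ∑ q ∈ ({13} : Finset ℕ), (q ^ 2 - q) = 156 := by decide +kernel
    rw [hS] at hT
    exact mul_mono h1 (160 + S k) (by norm_num; omega)
  rcases Nat.lt_or_ge 23 x with h2 | h2
  swap
  · have hT := S_ge k {13, 17} (by
      rw [hx]
      intro q hq
      simp only [mem_insert, mem_singleton] at hq
      rcases hq with rfl | rfl <;> exact ⟨by norm_num, by norm_num, by omega⟩)
    have hS : ∑ q ∈ ({13, 17} : Finset ℕ), (q ^ 2 - q) = 428 := by decide +kernel
    rw [hS] at hT
    exact mul_mono h2 (160 + S k) (by norm_num; omega)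
  rcases Nat.lt_or_ge 31 x with h3 | h3
  swap
  · have hT := S_ge k {13, 17, 23} (by
      rw [hx]
      intro q hq
      simp only [mem_insert, mem_singleton] at hq
      rcases hq with rfl | rfl | rfl <;> exact ⟨by norm_num, by norm_num, by omega⟩)
    have hS : ∑ q ∈ ({13, 17, 23} : Finset ℕ), (q ^ 2 - q) = 934 := by decide +kernel
    rw [hS] at hT
    exact mul_mono h3 (160 + S k) (by norm_num; omega)
  rcases Nat.lt_or_ge 43 x with h4 | h4
  swap
  · have hT := S_ge k {13, 17, 23, 31} (by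
      rw [hx]
      intro q hq
      simp only [mem_insert, mem_singleton] at hq
      rcases hq with rfl | rfl | rfl | rfl <;> exact ⟨by norm_num, by norm_num, by omega⟩)
    have hS : ∑ q ∈ ({13, 17, 23, 31} : Finset ℕ), (q ^ 2 - q) = 1864 := by decide +kernel
    rw [hS] at hT
    exact mul_mono h4 (160 + S k) (by norm_num; omega)
  rcases Nat.lt_or_ge 61 x with h5 | h5
  swap
  · have hT := S_ge k {13, 17, 23, 31, 43} (by
      rw [hx]
      intro q hq
      simp only [mem_insert, mem_singleton] at hq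
      rcases hq with rfl | rfl | rfl | rfl | rfl <;> exact ⟨by norm_num, by norm_num, by omega⟩)
    have hS : ∑ q ∈ ({13, 17, 23, 31, 43} : Finset ℕ), (q ^ 2 - q) = 3670 := by decide +kernel
    rw [hS] at hT
    exact mul_mono h5 (160 + S k) (by norm_num; omega)
  rcases Nat.lt_or_ge 83 x with h6 | h6
  swap
  · have hT := S_ge k {13, 17, 23, 31, 43, 61} (by
      rw [hx]
      intro q hq
      simp only [mem_insert, mem_singleton] at hq
      rcases hq with rfl | rfl | rfl | rfl | rfl | rfl <;> exact ⟨by norm_num, by norm_num, by omega⟩)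
    have hS : ∑ q ∈ ({13, 17, 23, 31, 43, 61} : Finset ℕ), (q ^ 2 - q) = 7330 := by decide +kernel
    rw [hS] at hT
    exact mul_mono h6 (160 + S k) (by norm_num; omega)
  rcases Nat.lt_or_ge 113 x with h7 | h7
  swap
  · have hT := S_ge k {13, 17, 23, 31, 43, 61, 83} (by
      rw [hx]
      intro q hq
      simp only [mem_insert, mem_singleton] at hq
      rcases hq with rfl | rfl | rfl | rfl | rfl | rfl | rfl <;> exact ⟨by norm_num, by norm_num, by omega⟩)
    have hS : ∑ q ∈ ({13, 17, 23, 31, 43, 61, 83} : Finset ℕ), (q ^ 2 - q) = 14136 := by decide +kernel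
    rw [hS] at hT
    exact mul_mono h7 (160 + S k) (by norm_num; omega)
  rcases Nat.lt_or_ge 163 x with h8 | h8
  swap
  · have hT := S_ge k {13, 17, 23, 31, 43, 61, 83, 113} (by
      rw [hx]
      intro q hq
      simp only [mem_insert, mem_singleton] at hq
      rcases hq with rfl | rfl | rfl | rfl | rfl | rfl | rfl | rfl <;> exact ⟨by norm_num, by norm_num, by omega⟩)
    have hS : ∑ q ∈ ({13, 17, 23, 31, 43, 61, 83, 113} : Finset ℕ), (q ^ 2 - q) = 26792 := by decide +kernel
    rw [hS] at hT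
    exact mul_mono h8 (160 + S k) (by norm_num; omega)
  rcases Nat.lt_or_ge 229 x with h9 | h9
  swap
  · have hT := S_ge k {13, 17, 23, 31, 43, 61, 83, 113, 163} (by
      rw [hx]
      intro q hq
      simp only [mem_insert, mem_singleton] at hq
      rcases hq with rfl | rfl | rfl | rfl | rfl | rfl | rfl | rfl | rfl <;> exact ⟨by norm_num, by norm_num, by omega⟩)
    have hS : ∑ q ∈ ({13, 17, 23, 31, 43, 61, 83, 113, 163} : Finset ℕ), (q ^ 2 - q) = 53198 := by decide +kernel
    rw [hS] at hT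
    exact mul_mono h9 (160 + S k) (by norm_num; omega)
  rcases Nat.lt_or_ge 317 x with h10 | h10
  swap
  · have hT := S_ge k {13, 17, 23, 31, 43, 61, 83, 113, 163, 229} (by
      rw [hx]
      intro q hq
      simp only [mem_insert, mem_singleton] at hq
      rcases hq with rfl | rfl | rfl | rfl | rfl | rfl | rfl | rfl | rfl | rfl <;> exact ⟨by norm_num, by norm_num, by omega⟩)
    have hS : ∑ q ∈ ({13, 17, 23, 31, 43, 61, 83, 113, 163, 229} : Finset ℕ), (q ^ 2 - q) = 105410 := by decide +kernel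
    rw [hS] at hT
    exact mul_mono h10 (160 + S k) (by norm_num; omega)
  rcases Nat.lt_or_ge 449 x with h11 | h11
  swap
  · have hT := S_ge k {13, 17, 23, 31, 43, 61, 83, 113, 163, 229, 317} (by
      rw [hx]
      intro q hq
      simp only [mem_insert, mem_singleton] at hq
      rcases hq with rfl | rfl | rfl | rfl | rfl | rfl | rfl | rfl | rfl | rfl | rfl <;> exact ⟨by norm_num, by norm_num, by omega⟩)
    have hS : ∑ q ∈ ({13, 17, 23, 31, 43, 61, 83, 113, 163, 229, 317} : Finset ℕ), (q ^ 2 - q) = 205582 := by decide +kernel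
    rw [hS] at hT
    exact mul_mono h11 (160 + S k) (by norm_num; omega)
  rcases Nat.lt_or_ge 631 x with h12 | h12
  swap
  · have hT := S_ge k {13, 17, 23, 31, 43, 61, 83, 113, 163, 229, 317, 449} (by
      rw [hx]
      intro q hq
      simp only [mem_insert, mem_singleton] at hq
      rcases hq with rfl | rfl | rfl | rfl | rfl | rfl | rfl | rfl | rfl | rfl | rfl | rfl <;> exact ⟨by norm_num, by norm_num, by omega⟩)
    have hS : ∑ q ∈ ({13, 17, 23, 31, 43, 61, 83, 113, 163, 229, 317, 449} : Finset ℕ), (q ^ 2 - q) = 406734 := by decide +kernel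
    rw [hS] at hT
    exact mul_mono h12 (160 + S k) (by norm_num; omega)
  rcases Nat.lt_or_ge 887 x with h13 | h13
  swap
  · have hT := S_ge k {13, 17, 23, 31, 43, 61, 83, 113, 163, 229, 317, 449, 631} (by
      rw [hx]
      intro q hq
      simp only [mem_insert, mem_singleton] at hq
      rcases hq with rfl | rfl | rfl | rfl | rfl | rfl | rfl | rfl | rfl | rfl | rfl | rfl | rfl <;> exact ⟨by norm_num, by norm_num, by omega⟩)
    have hS : ∑ q ∈ ({13, 17, 23, 31, 43, 61, 83, 113, 163, 229, 317, 449, 631} : Finset ℕ), (q ^ 2 - q) = 804264 := by decide +kernel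
    rw [hS] at hT
    exact mul_mono h13 (160 + S k) (by norm_num; omega)
  rcases Nat.lt_or_ge 1259 x with h14 | h14
  swap
  · have hT := S_ge k {13, 17, 23, 31, 43, 61, 83, 113, 163, 229, 317, 449, 631, 887} (by
      rw [hx]
      intro q hq
      simp only [mem_insert, mem_singleton] at hq
      rcases hq with rfl | rfl | rfl | rfl | rfl | rfl | rfl | rfl | rfl | rfl | rfl | rfl | rfl | rfl <;> exact ⟨by norm_num, by norm_num, by omega⟩)
    have hS : ∑ q ∈ ({13, 17, 23, 31, 43, 61, 83, 113, 163, 229, 317, 449, 631, 887} : Finset ℕ), (q ^ 2 - q) = 1590146 := by decide +kernel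
    rw [hS] at hT
    exact mul_mono h14 (160 + S k) (by norm_num; omega)
  rcases Nat.lt_or_ge 1777 x with h15 | h15
  swap
  · have hT := S_ge k {13, 17, 23, 31, 43, 61, 83, 113, 163, 229, 317, 449, 631, 887, 1259} (by
      rw [hx]
      intro q hq
      simp only [mem_insert, mem_singleton] at hq
      rcases hq with rfl | rfl | rfl | rfl | rfl | rfl | rfl | rfl | rfl | rfl | rfl | rfl | rfl | rfl | rfl <;> exact ⟨by norm_num, by norm_num, by omega⟩)
    have hS : ∑ q ∈ ({13, 17, 23, 31, 43, 61, 83, 113, 163, 229, 317, 449, 631, 887, 1259} : Finset ℕ), (q ^ 2 - q) = 3173968 := by decide +kernel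
    rw [hS] at hT
    exact mul_mono h15 (160 + S k) (by norm_num; omega)
  rcases Nat.lt_or_ge 2503 x with h16 | h16
  swap
  · have hT := S_ge k {13, 17, 23, 31, 43, 61, 83, 113, 163, 229, 317, 449, 631, 887, 1259, 1777} (by
      rw [hx]
      intro q hq
      simp only [mem_insert, mem_singleton] at hq
      rcases hq with rfl | rfl | rfl | rfl | rfl | rfl | rfl | rfl | rfl | rfl | rfl | rfl | rfl | rfl | rfl | rfl <;> exact ⟨by norm_num, by norm_num, by omega⟩)
    have hS : ∑ q ∈ ({13, 17, 23, 31, 43, 61, 83, 113, 163, 229, 317, 449, 631, 887, 1259, 1777} : Finset ℕ), (q ^ 2 - q) = 6329920 := by decide +kernel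
    rw [hS] at hT
    exact mul_mono h16 (160 + S k) (by norm_num; omega)
  omega

lemma S_lower (k : ℕ) : 4 * (5 + k) ^ 3 ≤ 3 * S k + 3 * (5 + k) ^ 2 + (5 + k) + 420 := by
  induction k with
  | zero => simp [S]
  | succ k ih =>
    have e : S (k + 1) = S k + (p (5 + k) ^ 2 - p (5 + k)) := by
      unfold S
      rw [sum_range_succ]
    have h1 : 2 * (5 + k) + 1 ≤ p (5 + k) := by
      have := p_lower (4 + k)
      have e2 : 4 + k + 1 = 5 + k := by ring
      rwa [e2] at this
    have h2 : (2 * (5 + k) + 1) * (2 * (5 + k)) ≤ p (5 + k) ^ 2 - p (5 + k) := by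
      obtain ⟨d, hd⟩ := Nat.exists_eq_add_of_le h1
      rw [hd]
      apply Nat.le_sub_of_add_le
      nlinarith [Nat.zero_le (d * k), Nat.zero_le (d * d)]
    rw [e]
    nlinarith [h2, ih]

lemma sq_le_cube (k : ℕ) (h : 2503 < p (5 + k)) : p (5 + k) ^ 2 ≤ (5 + k) ^ 3 := by
  have hc : Nat.primeCounting (p (5 + k) - 1) = 5 + k := by
    have h1 := p_count (5 + k)
    unfold Nat.primeCounting Nat.primeCounting'
    rw [Nat.sub_add_cancel (by omega)]
    exact h1
  have hpi := Chebyshev.pi_ge (p (5 + k) - 1)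
  rw [hc] at hpi
  generalize hL : 5 + k = L at *
  generalize hx : p L = x at *
  have hx1 : ((x - 1 : ℕ) : ℝ) = (x : ℝ) - 1 := by
    rw [Nat.cast_sub (by omega)]
    simp
  rw [hx1] at hpi
  obtain ⟨X, hX⟩ : ∃ X : ℝ, X = x := ⟨_, rfl⟩
  rw [← hX] at hpi
  have hXl : (2504 : ℝ) ≤ X := by
    rw [hX]
    exact_mod_cast h
  have hX0 : 0 < X := by linarith
  obtain ⟨t, ht⟩ : ∃ t : ℝ, t = X ^ ((1 : ℝ) / 3) := ⟨_, rfl⟩
  have ht0 : 0 < t := by rw [ht]; positivity
  have ht3 : t ^ 3 = X := by
    rw [ht, ← Real.rpow_natCast, ← Real.rpow_mul hX0.le]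
    norm_num
  have htl : (13.5 : ℝ) ≤ t := by
    by_contra hcon
    push Not at hcon
    have : t ^ 3 < 13.5 ^ 3 := by gcongr
    rw [ht3] at this
    norm_num at this
    linarith
  have hlog2 := Real.log_two_gt_d9
  have hlog2' := Real.log_two_lt_d9
  have hlogt : Real.log t ≤ 4 * Real.log 2 + t / 16 - 1 := by
    have h1 := Real.log_le_sub_one_of_pos (x := t / 16) (by positivity)
    rw [Real.log_div ht0.ne' (by norm_num)] at h1
    have h2 : Real.log 16 = 4 * Real.log 2 := by
      rw [show (16 : ℝ) = 2 ^ 4 by norm_num, Real.log_pow]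
      norm_num
    rw [h2] at h1
    linarith
  have hlogX : Real.log X = 3 * Real.log t := by
    rw [← ht3, Real.log_pow]
    norm_num
  have hlogX1 : Real.log X ≤ 5.3178 + 0.1875 * t := by
    rw [hlogX]
    linarith
  have hlogX0 : 0 < Real.log X := Real.log_pos (by linarith)
  have hlm : 0 < Real.log (X - 1) := Real.log_pos (by linarith)
  have hlm1 : Real.log (X - 1) ≤ Real.log X := Real.log_le_log (by linarith) (by linarith)
  rw [sub_add_cancel, div_le_iff₀ hlm] at hpi
  have hL0 : (0 : ℝ) ≤ L := Nat.cast_nonneg _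
  have h3 : (X - 1) * Real.log 2 ≤ ((L : ℝ) + 1) * Real.log X := by
    have := mul_le_mul_of_nonneg_left hlm1 hL0
    linarith
  have h4 : (X - 1) * 0.6931 ≤ ((L : ℝ) + 1) * (5.3178 + 0.1875 * t) := by
    have h5 : (X - 1) * 0.6931 ≤ (X - 1) * Real.log 2 := by
      apply mul_le_mul_of_nonneg_left _ (by linarith)
      linarith
    have h6 := mul_le_mul_of_nonneg_left hlogX1 (show (0 : ℝ) ≤ (L : ℝ) + 1 by linarith)
    linarith
  have h7 : t ^ 2 ≤ L := by
    by_contra hcon
    push Not at hcon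
    have h8 : ((L : ℝ) + 1) * (5.3178 + 0.1875 * t) ≤ (t ^ 2 + 1) * (5.3178 + 0.1875 * t) := by
      apply mul_le_mul_of_nonneg_right _ (by positivity)
      linarith
    have h9 : (t ^ 3 - 1) * 0.6931 ≤ (t ^ 2 + 1) * (5.3178 + 0.1875 * t) := by
      rw [ht3]
      linarith
    nlinarith [mul_nonneg (sq_nonneg t) (sub_nonneg.2 htl), sub_nonneg.2 htl, mul_nonneg (sub_nonneg.2 htl) (sub_nonneg.2 htl)]
  have h10 : X ^ 2 ≤ (L : ℝ) ^ 3 := by
    have h11 : (t ^ 2) ^ 3 ≤ (L : ℝ) ^ 3 := by gcongr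
    have e : (t ^ 2) ^ 3 = X ^ 2 := by rw [← ht3]; ring
    rwa [e] at h11
  rw [hX] at h10
  exact_mod_cast h10

lemma key_all (k : ℕ) : Key k := by
  rcases Nat.lt_or_ge 2503 (p (5 + k)) with h | h
  · apply key_of
    have h1 := sq_le_cube k h
    have h2 := S_lower k
    have h3 : 3 * (5 + k) ^ 2 + (5 + k) ≤ (5 + k) ^ 3 + 60 := by
      nlinarith [Nat.zero_le (k * k), Nat.zero_le (k * k * k)]
    omega
  · exact key_small k h

/-- the first primes -/
def pr (j : ℕ) : ℕ := [2, 3, 5, 7, 11, 13, 17, 19].getD j 0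

lemma pr_eq (j : ℕ) (hj : j < 8) : pr j = p j := by
  have key : ∀ q : ℕ, q.Prime → ∀ i, Nat.count Nat.Prime q = i → q = p i := by
    intro q hq i hi
    have := Nat.nth_count hq
    rw [hi] at this
    exact this.symm
  interval_cases j
  · exact key 2 (by norm_num) 0 (by decide)
  · exact key 3 (by norm_num) 1 (by decide)
  · exact key 5 (by norm_num) 2 (by decide)
  · exact key 7 (by norm_num) 3 (by decide)
  · exact key 11 (by norm_num) 4 (by decide)
  · exact key 13 (by norm_num) 5 (by decide)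
  · exact key 17 (by norm_num) 6 (by decide)
  · exact key 19 (by norm_num) 7 (by decide)

/-- search for a representation with `L` terms -/
def chk : ℕ → ℕ → Bool
  | 0, n => n == 0
  | L + 1, n => (List.range 8).any fun a => decide (pr L ^ (a + 1) ≤ n) && chk L (n - pr L ^ (a + 1))

lemma chk_sound (L : ℕ) (hL : L ≤ 8) : ∀ n, chk L n = true → n ∈ R L := by
  induction L with
  | zero =>
    intro n hn
    simp only [chk, beq_iff_eq] at hn
    exact ⟨fun _ => 1, fun _ => le_rfl, by simp [hn]⟩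
  | succ L ih =>
    intro n hn
    simp only [chk, List.any_eq_true, Bool.and_eq_true, decide_eq_true_eq] at hn
    obtain ⟨a, -, h1, h2⟩ := hn
    rw [pr_eq L (by omega)] at h1 h2
    have h3 := R_step (e := a + 1) (by omega) (ih (by omega) _ h2)
    rwa [Nat.sub_add_cancel h1] at h3

lemma good5 : Good 5 144 302 := by
  refine ⟨by norm_num, fun n h1 h2 h3 => ?_⟩
  have key : ∀ m : Fin 80, chk 5 (144 + 2 * m.1) = true := by decide +kernel
  have h4 := key ⟨(n - 144) / 2, by omega⟩
  have h5 : 144 + 2 * ((n - 144) / 2) = n := by omega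
  simp only [h5] at h4
  exact chk_sound 5 (by norm_num) n h4

lemma small_rep (n : ℕ) (h1 : 34 ≤ n) (h2 : n < 157) : ∃ L, 1 ≤ L ∧ n ∈ R L := by
  have key : ∀ m : Fin 123, ∃ L : Fin 8, chk (L.1 + 1) (34 + m.1) = true := by decide +kernel
  obtain ⟨L, hL⟩ := key ⟨n - 34, by omega⟩
  have h3 : 34 + (n - 34) = n := by omega
  simp only [h3] at hL
  exact ⟨L.1 + 1, by omega, chk_sound _ (by omega) n hL⟩

lemma lo_succ (k : ℕ) : lo (k + 1) = lo k + p (5 + k) := by
  unfold lo
  rw [sum_range_succ]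
  ring

lemma lo_par (k : ℕ) : lo k % 2 = k % 2 := by
  induction k with
  | zero => simp [lo]
  | succ k ih =>
    rw [lo_succ]
    have := p_odd (j := 5 + k) (by omega)
    omega

lemma lo_two (k : ℕ) : lo (k + 2) ≤ hi k + 2 := by
  have h1 := key_all k
  have h2 : p (5 + (k + 1)) ≤ 2 * p (5 + k) := by
    obtain ⟨q, hq, h3, h4⟩ := Nat.exists_prime_lt_and_le_two_mul (p (5 + k)) (p_prime _).ne_zero
    have h5 : p (Nat.count Nat.Prime q) = q := Nat.nth_count hq
    rw [← h5] at h3
    have h6 := p_strictMono.lt_iff_lt.1 h3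
    have h7 : p (5 + (k + 1)) ≤ p (Nat.count Nat.Prime q) := p_strictMono.monotone (by omega)
    omega
  have h3 : 13 ≤ p (5 + k) := by
    rw [← p_five]
    exact p_strictMono.monotone (by omega)
  have h4 : 13 * p (5 + k) ≤ p (5 + k) ^ 2 := by nlinarith
  unfold Key at h1
  rw [show k + 2 = (k + 1) + 1 by ring, lo_succ, lo_succ]
  omega

lemma lo_large (k : ℕ) : k + 144 ≤ lo k := by
  induction k with
  | zero => simp [lo]
  | succ k ih =>
    rw [lo_succ]
    have := (p_prime (5 + k)).pos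
    omega

/-- Every integer from `34` on is a sum of positive powers of the first `L` primes, for some `L ≥ 1`. -/
theorem all_rep (n : ℕ) (hn : 34 ≤ n) : ∃ L, 1 ≤ L ∧ n ∈ R L := by
  rcases Nat.lt_or_ge n 157 with h | h
  · exact small_rep n hn h
  -- the largest `k` of the right parity with `lo k ≤ n`
  have hlo1 : lo 1 = 157 := by
    rw [lo_succ 0]
    simp [lo, p_five]
  have hlo0 : lo 0 = 144 := by simp [lo]
  have hex : ∃ m, n < lo (2 * m + n % 2) := ⟨n, by have := lo_large (2 * n + n % 2); omega⟩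
  classical
  obtain ⟨m, hm, hmin⟩ : ∃ m, n < lo (2 * m + n % 2) ∧ ∀ m' < m, lo (2 * m' + n % 2) ≤ n :=
    ⟨Nat.find hex, Nat.find_spec hex, fun m' hm' => by
      have := Nat.find_min hex hm'
      omega⟩
  have hm0 : m ≠ 0 := by
    rintro rfl
    rcases Nat.mod_two_eq_zero_or_one n with h0 | h0 <;> rw [h0] at hm <;> simp only [mul_zero, zero_add] at hm <;> omega
  obtain ⟨m', rfl⟩ := Nat.exists_eq_succ_of_ne_zero hm0
  have h1 := hmin m' (by omega)
  have h2 := lo_two (2 * m' + n % 2)
  have e : 2 * m' + n % 2 + 2 = 2 * m'.succ + n % 2 := by omega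
  rw [e] at h2
  have h3 := lo_par (2 * m' + n % 2)
  obtain ⟨h4, h5⟩ := Good_all good5 key_all (2 * m' + n % 2)
  exact ⟨5 + (2 * m' + n % 2), by omega, h5 n h1 (by omega) (by omega)⟩

lemma chk_complete (L : ℕ) (hL : L ≤ 8) : ∀ (n : ℕ) (a : ℕ → ℕ), n < 256 → (∀ j < L, 1 ≤ a j) →
    ∑ j ∈ range L, p j ^ a j = n → chk L n = true := by
  induction L with
  | zero =>
    intro n a _ _ h
    simp only [range_zero, sum_empty] at h
    simp [chk, ← h]
  | succ L ih =>
    intro n a hn ha h
    rw [sum_range_succ] at h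
    have h1 := ha L (by omega)
    obtain ⟨e, he⟩ : ∃ e, a L = e + 1 := ⟨a L - 1, by omega⟩
    rw [he, ← pr_eq L (by omega)] at h
    have h2 : e < 8 := by
      by_contra hcon
      have h3 : 2 ^ (e + 1) ≤ pr L ^ (e + 1) := by
        apply Nat.pow_le_pow_left
        rw [pr_eq L (by omega)]
        exact (p_prime L).two_le
      have h4 : 2 ^ 9 ≤ 2 ^ (e + 1) := Nat.pow_le_pow_right (by norm_num) (by omega)
      omega
    simp only [chk, List.any_eq_true, Bool.and_eq_true, decide_eq_true_eq]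
    refine ⟨e, List.mem_range.2 h2, by omega, ?_⟩
    exact ih (by omega) _ a (by omega) (fun j hj => ha j (by omega)) (by omega)

/-- `33` is not a sum of positive powers of the first `L` primes. -/
theorem not_rep33 (L : ℕ) (hL : 1 ≤ L) (a : ℕ → ℕ) (ha : ∀ j < L, 1 ≤ a j) :
    ∑ j ∈ range L, p j ^ a j ≠ 33 := by
  intro h
  rcases Nat.lt_or_ge L 6 with h6 | h6
  · have h1 := chk_complete L (by omega) 33 a (by norm_num) ha h
    have h2 : ∀ L : Fin 5, chk (L.1 + 1) 33 = false := by decide +kernel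
    have h3 := h2 ⟨L - 1, by omega⟩
    simp only [Nat.sub_add_cancel hL] at h3
    rw [h1] at h3
    exact absurd h3 (by decide)
  · have h1 : ∑ j ∈ range 6, p j ^ a j ≤ ∑ j ∈ range L, p j ^ a j :=
      sum_le_sum_of_subset (range_subset_range.2 h6)
    have h2 : ∑ j ∈ range 6, p j ≤ ∑ j ∈ range 6, p j ^ a j := by
      apply sum_le_sum
      intro j hj
      rw [mem_range] at hj
      exact Nat.le_self_pow (by have := ha j (by omega); omega) _
    have h3 : ∑ j ∈ range 6, p j = 41 := by
      simp only [sum_range_succ, range_zero, sum_empty, ← pr_eq 0 (by norm_num), ← pr_eq 1 (by norm_num),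
        ← pr_eq 2 (by norm_num), ← pr_eq 3 (by norm_num), ← pr_eq 4 (by norm_num), ← pr_eq 5 (by norm_num)]
      decide
    omega

end Q251.IP
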