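import Pool.Agent.Q233.MX.Stm2

/-! The Cayley transform (lemma job of helper233). -/

set_option autoImplicit false

open MeasureTheory Matrix Finset
open scoped ENNReal Matrix

namespace Pool.Agent.Q251.MXC

open Pool.Agent.Q233.MX.W

variable {κ : Type} [Fintype κ] [DecidableEq κ]

theorem skew_dot (X : Matrix κ κ ℝ) (hX : Xᵀ = -X) (v : κ → ℝ) : v ⬝ᵥ (X *ᵥ v) = 0 := by
  have h1 : v ⬝ᵥ (X *ᵥ v) = (Xᵀ *ᵥ v) ⬝ᵥ v := by
    rw [Matrix.dotProduct_mulVec, Matrix.mulVec_transpose]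
  rw [hX, Matrix.neg_mulVec, neg_dotProduct, dotProduct_comm (X *ᵥ v) v] at h1
  linarith

theorem unit_one_add (X : Matrix κ κ ℝ) (hX : Xᵀ = -X) : IsUnit (1 + X) := by
  rw [Matrix.isUnit_iff_isUnit_det, isUnit_iff_ne_zero]
  intro h0
  obtain ⟨v, hv, h1⟩ := Matrix.exists_mulVec_eq_zero_iff.2 h0
  rw [Matrix.add_mulVec, Matrix.one_mulVec] at h1
  have h2 : v ⬝ᵥ (v + X *ᵥ v) = 0 := by rw [h1, dotProduct_zero]
  rw [dotProduct_add, skew_dot X hX, add_zero, dotProduct_self_eq_zero] at h2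
  exact hv h2

theorem cay_eq (X : Matrix κ κ ℝ) (hX : Xᵀ = -X) : cay X = (2 : ℝ) • (1 + X)⁻¹ - 1 := by
  have hu := unit_one_add X hX
  rw [Matrix.isUnit_iff_isUnit_det] at hu
  have h1 : (1 - X) = (2 : ℝ) • (1 : Matrix κ κ ℝ) - (1 + X) := by
    rw [two_smul]
    abel
  unfold cay
  rw [h1, Matrix.sub_mul, Matrix.smul_mul, Matrix.one_mul, Matrix.mul_nonsing_inv _ hu]

theorem cay_thm : S_cay := by
  intro κ _ _ X hX
  have hu := unit_one_add X hX
  have hX' : (-X)ᵀ = -(-X) := by rw [Matrix.transpose_neg, hX]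
  have hm : IsUnit (1 - X) := by
    have := unit_one_add (-X) hX'
    rwa [← sub_eq_add_neg] at this
  have hud := (Matrix.isUnit_iff_isUnit_det _).1 hu
  have hmd := (Matrix.isUnit_iff_isUnit_det _).1 hm
  refine ⟨hu, ?_, ?_⟩
  · have h1 : (cay X)ᵀ = (1 - X)⁻¹ * (1 + X) := by
      unfold cay
      rw [Matrix.transpose_mul, Matrix.transpose_nonsing_inv, Matrix.transpose_add,
        Matrix.transpose_sub, Matrix.transpose_one, hX, sub_neg_eq_add, ← sub_eq_add_neg]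
    have h2 : (1 + X)⁻¹ * (1 - X)⁻¹ = (1 - X)⁻¹ * (1 + X)⁻¹ := by
      rw [← Matrix.mul_inv_rev, ← Matrix.mul_inv_rev]
      congr 1
      noncomm_ring
    rw [h1]
    unfold cay
    calc (1 - X) * (1 + X)⁻¹ * ((1 - X)⁻¹ * (1 + X)) =
        (1 - X) * ((1 + X)⁻¹ * (1 - X)⁻¹) * (1 + X) := by
          rw [Matrix.mul_assoc, Matrix.mul_assoc, Matrix.mul_assoc]
      _ = ((1 - X) * (1 - X)⁻¹) * ((1 + X)⁻¹ * (1 + X)) := by
          rw [h2]
          rw [Matrix.mul_assoc, Matrix.mul_assoc, Matrix.mul_assoc]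
      _ = 1 := by
          rw [Matrix.mul_nonsing_inv _ hmd, Matrix.nonsing_inv_mul _ hud, Matrix.one_mul]
  · intro Y hY h
    rw [cay_eq X hX, cay_eq Y hY] at h
    have h1 : (1 + X)⁻¹ = (1 + Y)⁻¹ := by
      have h2 := sub_left_inj.1 h
      exact smul_right_injective _ (show (2 : ℝ) ≠ 0 by norm_num) h2
    have hvd := (Matrix.isUnit_iff_isUnit_det _).1 (unit_one_add Y hY)
    have h3 : (1 + X) = (1 + Y) := by
      calc (1 + X) = ((1 + X)⁻¹)⁻¹ := (Matrix.nonsing_inv_nonsing_inv _ hud).symm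
        _ = ((1 + Y)⁻¹)⁻¹ := by rw [h1]
        _ = 1 + Y := Matrix.nonsing_inv_nonsing_inv _ hvd
    exact add_left_cancel h3

end Pool.Agent.Q251.MXC
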