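import Pool.Agent.Q233.MX.Stm2

/-! The Gaussian integral of the square of the Jacobian weight (lemma job of helper233). -/

set_option autoImplicit false

open MeasureTheory Matrix Finset
open scoped ENNReal Matrix

namespace Pool.Agent.Q251.MXH

open Pool.Agent.Q233.MX.W

theorem gamma_asc (x : ℝ) (k : ℕ) (hx : 0 < x) :
    Real.Gamma (x + k) = Real.Gamma x * (ascPochhammer ℝ k).eval x := by
  induction k with
  | zero => simp
  | succ k ih =>
    rw [ascPochhammer_succ_eval, Nat.cast_succ, ← add_assoc, Real.Gamma_add_one (by positivity), ih]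
    ring

theorem prod_fact (n : ℕ) : (vandermonde (fun i : Fin n => (i : ℝ))).det =
    ∏ k ∈ Finset.range n, (k.factorial : ℝ) := by
  cases n with
  | zero => simp
  | succ n =>
    rw [det_vandermonde_id_eq_superFactorial]
    induction n with
    | zero => simp
    | succ n ih =>
      rw [Finset.prod_range_succ, ← ih, Nat.superFactorial]
      push_cast
      ring

/-- the determinant of the Hankel matrix -/
theorem det_gamma (n : ℕ) (b : ℝ) (hb : 0 < b) :
    (Matrix.of (fun i j : Fin n => Real.Gamma ((i : ℝ) + j + b))).det =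
      ∏ k ∈ Finset.range n, ((k.factorial : ℝ) * Real.Gamma ((k : ℝ) + b)) := by
  have h2 : (Matrix.of (fun i j : Fin n => Real.Gamma ((i : ℝ) + j + b))) =
      Matrix.of (fun i j : Fin n => Real.Gamma ((i : ℝ) + b) *
        (Matrix.of (fun i j : Fin n => (ascPochhammer ℝ (j : ℕ)).eval ((i : ℝ) + b))) i j) := by
    ext i j
    simp only [of_apply]
    rw [← gamma_asc _ _ (by positivity)]
    congr 1
    ring
  rw [h2, Matrix.det_mul_column]
  have h3 := Matrix.det_eval_matrixOfPolynomials_eq_det_vandermonde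
    (fun i : Fin n => (i : ℝ) + b) (fun j : Fin n => ascPochhammer ℝ (j : ℕ))
    (fun j => ascPochhammer_natDegree ℝ _) (fun j => monic_ascPochhammer ℝ _)
  rw [← h3, det_vandermonde_add, prod_fact, Finset.prod_mul_distrib, mul_comm]
  congr 1
  rw [Finset.prod_range]

/-- the moments -/
theorem moment (a k : ℕ) (κ : ℝ) (hκ : 0 < κ) :
    ∫ x in Set.Ioi (0 : ℝ), x ^ (2 * (k + a)) * Real.exp (-(κ * x ^ 2)) =
      (1 / 2) * κ ^ (-((k : ℝ) + (a + 1 / 2))) * Real.Gamma ((k : ℝ) + (a + 1 / 2)) := by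
  have h1 := integral_rpow_mul_exp_neg_mul_rpow (p := 2) (q := ((2 * (k + a) : ℕ) : ℝ)) (b := κ)
    (by norm_num) (by
      have : (0 : ℝ) ≤ ((2 * (k + a) : ℕ) : ℝ) := Nat.cast_nonneg _
      linarith) hκ
  have h2 : (((2 * (k + a) : ℕ) : ℝ) + 1) / 2 = (k : ℝ) + (a + 1 / 2) := by
    push_cast
    ring
  have h3 : -(((2 * (k + a) : ℕ) : ℝ) + 1) / 2 = -((k : ℝ) + (a + 1 / 2)) := by
    push_cast
    ring
  rw [h2, h3] at h1
  rw [mul_comm (1 / 2 : ℝ), ← h1]
  apply integral_congr_ae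
  filter_upwards with x
  rw [Real.rpow_natCast]
  congr 2
  rw [show (2 : ℝ) = ((2 : ℕ) : ℝ) by norm_num, Real.rpow_natCast]
  ring

theorem moment_int (a k : ℕ) (κ : ℝ) (hκ : 0 < κ) :
    IntegrableOn (fun x : ℝ => x ^ (2 * (k + a)) * Real.exp (-(κ * x ^ 2))) (Set.Ioi 0) := by
  have h1 := integrable_rpow_mul_exp_neg_mul_sq (b := κ) hκ (s := ((2 * (k + a) : ℕ) : ℝ)) (by
    have : (0 : ℝ) ≤ ((2 * (k + a) : ℕ) : ℝ) := Nat.cast_nonneg _
    linarith)
  refine (h1.integrableOn (s := Set.Ioi 0)).congr ?_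
  filter_upwards with x
  rw [Real.rpow_natCast]
  congr 2
  ring

/-- the integrand -/
noncomputable def fS (n a : ℕ) (κ : ℝ) (s : Fin n → ℝ) : ℝ :=
  w a s ^ 2 * Real.exp (-(κ * ∑ i, s i ^ 2))

/-- expansion of the square of the weight -/
theorem fS_eq (n a : ℕ) (κ : ℝ) (s : Fin n → ℝ) : fS n a κ s =
    ∑ σ : Equiv.Perm (Fin n), ∑ τ : Equiv.Perm (Fin n),
      ((Equiv.Perm.sign σ : ℤ) : ℝ) * ((Equiv.Perm.sign τ : ℤ) : ℝ) *
        ∏ i, (s i ^ (2 * (((σ i : ℕ) + τ i) + a)) * Real.exp (-(κ * s i ^ 2))) := by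
  have h1 : (∏ i, ∏ j ∈ Finset.Ioi i, (s i ^ 2 - s j ^ 2)) ^ 2 =
      (vandermonde (fun i => s i ^ 2)).det ^ 2 := by
    rw [det_vandermonde, ← Finset.prod_pow, ← Finset.prod_pow]
    apply Finset.prod_congr rfl
    intro i _
    rw [← Finset.prod_pow, ← Finset.prod_pow]
    apply Finset.prod_congr rfl
    intro j _
    ring
  have h2 : (vandermonde (fun i => s i ^ 2)).det = ∑ σ : Equiv.Perm (Fin n),
      ((Equiv.Perm.sign σ : ℤ) : ℝ) * ∏ i, s i ^ (2 * (σ i : ℕ)) := by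
    rw [← det_transpose, det_apply']
    apply Finset.sum_congr rfl
    intro σ _
    congr 1
    apply Finset.prod_congr rfl
    intro i _
    rw [transpose_apply, vandermonde_apply, ← pow_mul]
  unfold fS w
  rw [mul_pow, h1, h2, sq (∑ σ : Equiv.Perm (Fin n), _), Finset.sum_mul_sum, Finset.sum_mul,
    Finset.sum_mul]
  apply Finset.sum_congr rfl
  intro σ _
  rw [Finset.sum_mul, Finset.sum_mul]
  apply Finset.sum_congr rfl
  intro τ _
  rw [Finset.mul_sum, ← Finset.sum_neg_distrib, Real.exp_sum, ← Finset.prod_pow]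
  have h3 : ∏ i, (s i ^ (2 * (((σ i : ℕ) + τ i) + a)) * Real.exp (-(κ * s i ^ 2))) =
      (∏ i, s i ^ (2 * (σ i : ℕ))) * (∏ i, s i ^ (2 * (τ i : ℕ))) * (∏ i, (s i ^ a) ^ 2) *
        ∏ i, Real.exp (-(κ * s i ^ 2)) := by
    rw [← Finset.prod_mul_distrib, ← Finset.prod_mul_distrib, ← Finset.prod_mul_distrib]
    apply Finset.prod_congr rfl
    intro i _
    rw [← pow_mul, ← pow_add, ← pow_add]
    congr 2
    ring
  rw [h3]
  ring

/-- the positive orthant -/
def Po (n : ℕ) : Set (Fin n → ℝ) := Set.univ.pi (fun _ => Set.Ioi 0)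

theorem int_prod (n a : ℕ) (κ : ℝ) (hκ : 0 < κ) (e : Fin n → ℕ) :
    IntegrableOn (fun s : Fin n → ℝ =>
      ∏ i, (s i ^ (2 * (e i + a)) * Real.exp (-(κ * s i ^ 2)))) (Po n) ∧
    ∫ s in Po n, ∏ i, (s i ^ (2 * (e i + a)) * Real.exp (-(κ * s i ^ 2))) =
      ∏ i, ((1 / 2) * κ ^ (-((e i : ℝ) + (a + 1 / 2))) * Real.Gamma ((e i : ℝ) + (a + 1 / 2))) := by
  have hm : (volume : Measure (Fin n → ℝ)).restrict (Po n) =
      Measure.pi (fun _ : Fin n => (volume : Measure ℝ).restrict (Set.Ioi 0)) := by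
    unfold Po
    rw [volume_pi, Measure.restrict_pi_pi]
  constructor
  · unfold IntegrableOn
    rw [hm]
    exact Integrable.fintype_prod (f := fun i x => x ^ (2 * (e i + a)) * Real.exp (-(κ * x ^ 2)))
      (fun i => moment_int a (e i) κ hκ)
  · rw [hm]
    rw [integral_fintype_prod_eq_prod
      (fun i (x : ℝ) => x ^ (2 * (e i + a)) * Real.exp (-(κ * x ^ 2)))]
    apply Finset.prod_congr rfl
    intro i _
    exact moment a (e i) κ hκ

theorem int_fS (n a : ℕ) (κ : ℝ) (hκ : 0 < κ) :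
    IntegrableOn (fS n a κ) (Po n) ∧ ∫ s in Po n, fS n a κ s = n.factorial *
      (Matrix.of (fun i j : Fin n => (1 / 2) * κ ^ (-((((i : ℕ) + j : ℕ) : ℝ) + (a + 1 / 2))) *
        Real.Gamma ((((i : ℕ) + j : ℕ) : ℝ) + (a + 1 / 2)))).det := by
  have h0 : fS n a κ = fun s => ∑ σ : Equiv.Perm (Fin n), ∑ τ : Equiv.Perm (Fin n),
      ((Equiv.Perm.sign σ : ℤ) : ℝ) * ((Equiv.Perm.sign τ : ℤ) : ℝ) *
        ∏ i, (s i ^ (2 * (((σ i : ℕ) + τ i) + a)) * Real.exp (-(κ * s i ^ 2))) := by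
    funext s
    exact fS_eq n a κ s
  have hI : ∀ σ τ : Equiv.Perm (Fin n), IntegrableOn (fun s : Fin n → ℝ =>
      ((Equiv.Perm.sign σ : ℤ) : ℝ) * ((Equiv.Perm.sign τ : ℤ) : ℝ) *
        ∏ i, (s i ^ (2 * (((σ i : ℕ) + τ i) + a)) * Real.exp (-(κ * s i ^ 2)))) (Po n) := by
    intro σ τ
    exact (int_prod n a κ hκ (fun i => (σ i : ℕ) + τ i)).1.const_mul _
  constructor
  · rw [h0]
    exact integrable_finsetSum _ (fun σ _ => integrable_finsetSum _ (fun τ _ => hI σ τ))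
  · rw [h0]
    rw [integral_finsetSum _ (fun σ _ => integrable_finsetSum _ (fun τ _ => hI σ τ))]
    set M : ℕ → ℝ := fun k => (1 / 2) * κ ^ (-((k : ℝ) + (a + 1 / 2))) *
      Real.Gamma ((k : ℝ) + (a + 1 / 2)) with hM
    have h1 : ∀ σ : Equiv.Perm (Fin n), ∫ s in Po n, ∑ τ : Equiv.Perm (Fin n),
        ((Equiv.Perm.sign σ : ℤ) : ℝ) * ((Equiv.Perm.sign τ : ℤ) : ℝ) *
        ∏ i, (s i ^ (2 * (((σ i : ℕ) + τ i) + a)) * Real.exp (-(κ * s i ^ 2))) =
        (Matrix.of (fun i j : Fin n => M ((i : ℕ) + j))).det := by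
      intro σ
      rw [integral_finsetSum _ (fun τ _ => hI σ τ)]
      have h2 : ∀ τ : Equiv.Perm (Fin n), ∫ s in Po n,
          ((Equiv.Perm.sign σ : ℤ) : ℝ) * ((Equiv.Perm.sign τ : ℤ) : ℝ) *
          ∏ i, (s i ^ (2 * (((σ i : ℕ) + τ i) + a)) * Real.exp (-(κ * s i ^ 2))) =
          ((Equiv.Perm.sign (τ * σ⁻¹) : ℤ) : ℝ) * ∏ i, M (((τ * σ⁻¹) i : ℕ) + i) := by
        intro τ
        rw [integral_const_mul]
        have h3 := (int_prod n a κ hκ (fun i => (σ i : ℕ) + τ i)).2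
        rw [h3]
        have h4 : ∏ i, M (((τ * σ⁻¹) i : ℕ) + i) = ∏ i, M ((σ i : ℕ) + τ i) := by
          rw [← Equiv.prod_comp σ]
          apply Finset.prod_congr rfl
          intro i _
          simp [add_comm]
        rw [h4]
        congr 1
        rw [Equiv.Perm.sign_mul, Equiv.Perm.sign_inv]
        push_cast
        ring
      rw [Finset.sum_congr rfl (fun τ _ => h2 τ)]
      rw [det_apply']
      exact Equiv.sum_comp (Equiv.mulRight σ⁻¹)
        (fun τ : Equiv.Perm (Fin n) => ((Equiv.Perm.sign τ : ℤ) : ℝ) * ∏ i, M ((τ i : ℕ) + i))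
    rw [Finset.sum_congr rfl (fun σ _ => h1 σ), Finset.sum_const, Finset.card_univ,
      Fintype.card_perm, Fintype.card_fin, nsmul_eq_mul]

theorem det_M (n a : ℕ) (κ : ℝ) (hκ : 0 < κ) :
    (Matrix.of (fun i j : Fin n => (1 / 2) * κ ^ (-((((i : ℕ) + j : ℕ) : ℝ) + (a + 1 / 2))) *
        Real.Gamma ((((i : ℕ) + j : ℕ) : ℝ) + (a + 1 / 2)))).det =
      (1 / 2) ^ n * κ ^ (-((n : ℝ) * (n + a - 1 / 2))) *
      ∏ k ∈ Finset.range n, ((k.factorial : ℝ) * Real.Gamma ((k : ℝ) + a + 1 / 2)) := by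
  have h1 : (Matrix.of (fun i j : Fin n => (1 / 2) * κ ^ (-((((i : ℕ) + j : ℕ) : ℝ) + (a + 1 / 2))) *
        Real.Gamma ((((i : ℕ) + j : ℕ) : ℝ) + (a + 1 / 2)))) =
      Matrix.of (fun i j : Fin n => ((1 / 2) * κ ^ (-((i : ℝ) + (a + 1 / 2)))) *
        (Matrix.of (fun i j : Fin n => κ ^ (-(j : ℝ)) *
          (Matrix.of (fun i j : Fin n => Real.Gamma ((i : ℝ) + j + (a + 1 / 2)))) i j)) i j) := by
    ext i j
    simp only [of_apply]
    push_cast
    have h2 : κ ^ (-((i : ℝ) + j + (a + 1 / 2))) =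
        κ ^ (-((i : ℝ) + (a + 1 / 2))) * κ ^ (-(j : ℝ)) := by
      rw [← Real.rpow_add hκ]
      congr 1
      ring
    rw [h2]
    ring
  rw [h1, det_mul_column, det_mul_row, det_gamma n (a + 1 / 2) (by positivity)]
  have h3 : ∏ k ∈ Finset.range n, ((k.factorial : ℝ) * Real.Gamma ((k : ℝ) + (a + 1 / 2))) =
      ∏ k ∈ Finset.range n, ((k.factorial : ℝ) * Real.Gamma ((k : ℝ) + a + 1 / 2)) := by
    apply Finset.prod_congr rfl
    intro k _
    rw [add_assoc]
  rw [h3, ← mul_assoc]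
  congr 1
  rw [Finset.prod_mul_distrib, Finset.prod_const, Finset.card_univ, Fintype.card_fin, mul_assoc,
    ← Finset.prod_mul_distrib]
  congr 1
  have h4 : ∀ i : Fin n, κ ^ (-((i : ℝ) + (a + 1 / 2))) * κ ^ (-(i : ℝ)) =
      κ ^ (-(2 * (i : ℝ) + (a + 1 / 2))) := by
    intro i
    rw [← Real.rpow_add hκ]
    congr 1
    ring
  rw [Finset.prod_congr rfl (fun i _ => h4 i)]
  rw [← Real.rpow_sum_of_pos hκ]
  congr 1
  have h5 : ∑ i : Fin n, -(2 * (i : ℝ) + (a + 1 / 2)) =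
      ∑ i ∈ Finset.range n, -(2 * (i : ℝ) + (a + 1 / 2)) := by
    rw [Finset.sum_range]
  rw [h5]
  clear h1 h3 h4 h5
  induction n with
  | zero => simp
  | succ n ih =>
    rw [Finset.sum_range_succ, ih]
    push_cast
    ring

theorem fS_perm (n a : ℕ) (κ : ℝ) (σ : Equiv.Perm (Fin n)) (s : Fin n → ℝ) :
    fS n a κ (s ∘ σ) = fS n a κ s := by
  have h1 : ∀ t : Fin n → ℝ, (∏ i, ∏ j ∈ Finset.Ioi i, (t i ^ 2 - t j ^ 2)) ^ 2 =
      (vandermonde (fun i => t i ^ 2)).det ^ 2 := by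
    intro t
    rw [det_vandermonde, ← Finset.prod_pow, ← Finset.prod_pow]
    apply Finset.prod_congr rfl
    intro i _
    rw [← Finset.prod_pow, ← Finset.prod_pow]
    apply Finset.prod_congr rfl
    intro j _
    ring
  unfold fS w
  rw [mul_pow, mul_pow, h1, h1]
  have h2 : (vandermonde (fun i => (s ∘ σ) i ^ 2)).det =
      ((Equiv.Perm.sign σ : ℤ) : ℝ) * (vandermonde (fun i => s i ^ 2)).det := by
    have h3 : vandermonde (fun i => (s ∘ σ) i ^ 2) =
        (vandermonde (fun i => s i ^ 2)).submatrix σ id := by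
      ext i j
      rfl
    rw [h3, det_permute]
  have h4 : ∏ i, (s ∘ σ) i ^ a = ∏ i, s i ^ a := Equiv.prod_comp σ (fun i => s i ^ a)
  have h5 : ∑ i, (s ∘ σ) i ^ 2 = ∑ i, s i ^ 2 := Equiv.sum_comp σ (fun i => s i ^ 2)
  rw [h2, h4, h5, mul_pow]
  have h6 : (((Equiv.Perm.sign σ : ℤ) : ℝ)) ^ 2 = 1 := by
    rcases Int.units_eq_one_or (Equiv.Perm.sign σ) with h | h <;> simp [h]
  rw [h6, one_mul]

theorem Ch_meas (n : ℕ) : MeasurableSet (Ch n) := by
  have h1 : Ch n = (⋂ i, {s : Fin n → ℝ | 0 < s i}) ∩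
      ⋂ i, ⋂ j, {s : Fin n → ℝ | i < j → s j < s i} := by
    ext s
    unfold Ch
    simp only [Set.mem_ofPred_eq, Set.mem_inter_iff, Set.mem_iInter]
    exact ⟨fun h => ⟨h.1, fun i j hij => h.2 hij⟩, fun h => ⟨h.1, fun i j hij => h.2 i j hij⟩⟩
  rw [h1]
  refine MeasurableSet.inter (MeasurableSet.iInter fun i => ?_)
    (MeasurableSet.iInter fun i => MeasurableSet.iInter fun j => ?_)
  · exact measurableSet_lt measurable_const (measurable_pi_apply i)
  · by_cases hij : i < j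
    · simp only [hij, true_imp_iff]
      exact measurableSet_lt (measurable_pi_apply j) (measurable_pi_apply i)
    · simp only [hij, false_imp_iff]
      exact MeasurableSet.univ

theorem perm_unique (n : ℕ) (s : Fin n → ℝ) (σ τ : Equiv.Perm (Fin n)) (h1 : s ∘ σ ∈ Ch n)
    (h2 : s ∘ τ ∈ Ch n) : σ = τ := by
  have h3 : StrictAnti (s ∘ σ) := h1.2
  have h4 : StrictAnti (s ∘ τ) := h2.2
  have h5 : StrictMono (τ⁻¹ * σ : Equiv.Perm (Fin n)) := by
    intro i j hij
    have h6 := h3 hij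
    have e1 : (s ∘ σ) i = (s ∘ τ) ((τ⁻¹ * σ) i) := by simp
    have e2 : (s ∘ σ) j = (s ∘ τ) ((τ⁻¹ * σ) j) := by simp
    rw [e1, e2] at h6
    exact h4.lt_iff_gt.1 h6
  have h6 : (τ⁻¹ * σ : Equiv.Perm (Fin n)) = 1 := by
    have h8 : (⟨(τ⁻¹ * σ : Equiv.Perm (Fin n)), fun {i j} => h5.le_iff_le⟩ : Fin n ≃o Fin n) =
        OrderIso.refl _ := Subsingleton.elim _ _
    ext i
    have h9 := congrArg (fun e : Fin n ≃o Fin n => ((e i : Fin n) : ℕ)) h8
    exact h9
  rw [inv_mul_eq_one] at h6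
  exact h6.symm

theorem hankel : S_hankel := by
  classical
  intro n a κ hκ
  set g : (Fin n → ℝ) → ℝ≥0∞ := fun s => ENNReal.ofReal (fS n a κ s) with hg
  have hfm : Measurable (fS n a κ) := by
    unfold fS w
    fun_prop
  have hgm : Measurable g := hfm.ennreal_ofReal
  have hnn : ∀ s, 0 ≤ fS n a κ s := fun s => by
    unfold fS
    positivity
  -- the sum over the permutations
  have hstep : ∀ σ : Equiv.Perm (Fin n), ∫⁻ s in Ch n, g s =
      ∫⁻ s, (Ch n).indicator g (s ∘ σ) := by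
    intro σ
    rw [← lintegral_indicator (Ch_meas n)]
    have h1 := (volume_measurePreserving_piCongrLeft (fun _ : Fin n => ℝ) σ.symm)
    have h2 := h1.lintegral_comp (f := (Ch n).indicator g) (hgm.indicator (Ch_meas n))
    rw [← h2]
    apply lintegral_congr
    intro s
    congr 1
    funext i
    simp [MeasurableEquiv.coe_piCongrLeft, Equiv.piCongrLeft_apply]
  have hsum : (n.factorial : ℝ≥0∞) * ∫⁻ s in Ch n, g s ≤ ∫⁻ s in Po n, g s := by
    have h1 : (n.factorial : ℝ≥0∞) * ∫⁻ s in Ch n, g s =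
        ∑ σ : Equiv.Perm (Fin n), ∫⁻ s, (Ch n).indicator g (s ∘ σ) := by
      rw [Finset.sum_congr rfl (fun σ _ => (hstep σ).symm), Finset.sum_const, Finset.card_univ,
        Fintype.card_perm, Fintype.card_fin, nsmul_eq_mul]
    rw [h1, ← lintegral_finsetSum]
    · have hPo : MeasurableSet (Po n) := MeasurableSet.univ_pi (fun _ => measurableSet_Ioi)
      rw [← lintegral_indicator hPo]
      apply lintegral_mono
      intro s
      show ∑ σ : Equiv.Perm (Fin n), (Ch n).indicator g (s ∘ σ) ≤ (Po n).indicator g s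
      by_cases hex : ∃ σ : Equiv.Perm (Fin n), s ∘ σ ∈ Ch n
      · obtain ⟨σ, hσ⟩ := hex
        have hs : s ∈ Po n := by
          intro i _
          have := hσ.1 (σ.symm i)
          simpa using this
        rw [Set.indicator_of_mem hs, Finset.sum_eq_single σ]
        · rw [Set.indicator_of_mem hσ, hg]
          simp only
          rw [fS_perm]
        · intro τ _ hτ
          rw [Set.indicator_of_notMem]
          intro h
          exact hτ (perm_unique n s τ σ h hσ)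
        · intro h
          exact absurd (Finset.mem_univ σ) h
      · push Not at hex
        rw [Finset.sum_eq_zero]
        · exact bot_le
        · intro σ _
          exact Set.indicator_of_notMem (hex σ) _
    · intro σ _
      exact (hgm.indicator (Ch_meas n)).comp (measurable_pi_lambda _ (fun i => measurable_pi_apply _))
  have hPoI : ∫⁻ s in Po n, g s = ENNReal.ofReal (n.factorial *
      ((1 / 2) ^ n * κ ^ (-((n : ℝ) * (n + a - 1 / 2))) *
      ∏ k ∈ Finset.range n, ((k.factorial : ℝ) * Real.Gamma ((k : ℝ) + a + 1 / 2)))) := by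
    obtain ⟨h1, h2⟩ := int_fS n a κ hκ
    rw [det_M n a κ hκ] at h2
    rw [← h2, ofReal_integral_eq_lintegral_ofReal h1 (ae_of_all _ hnn)]
  rw [hPoI, ENNReal.ofReal_mul (Nat.cast_nonneg _), ENNReal.ofReal_natCast] at hsum
  have hf0 : (n.factorial : ℝ≥0∞) ≠ 0 := by
    exact_mod_cast n.factorial_ne_zero
  have hft : (n.factorial : ℝ≥0∞) ≠ ⊤ := ENNReal.natCast_ne_top _
  exact (ENNReal.mul_le_mul_iff_right hf0 hft).1 hsum

end Pool.Agent.Q251.MXH
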