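import Pool.Agent.Q233.MX.Stm2

/-! Stabilisers of diagonal matrices (lemma job of helper233). -/

set_option autoImplicit false

open MeasureTheory Matrix Finset
open scoped ENNReal Matrix

namespace Pool.Agent.Q251.MXS

open Pool.Agent.Q233.MX.W

variable {n a : ℕ}

theorem mulD (U : Matrix (Fin n ⊕ Fin a) (Fin n ⊕ Fin a) ℝ) (t : Fin n → ℝ)
    (r : Fin n ⊕ Fin a) (j : Fin n) : (U * D a t) r j = U r (.inl j) * t j := by
  rw [Matrix.mul_apply, Fintype.sum_sum_type]
  simp [D]

theorem Dmul_inl (V : Matrix (Fin n) (Fin n) ℝ) (t : Fin n → ℝ) (i j : Fin n) :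
    (D a t * V) (.inl i) j = t i * V i j := by
  rw [Matrix.mul_apply]
  simp [D]

theorem Dmul_inr (V : Matrix (Fin n) (Fin n) ℝ) (t : Fin n → ℝ) (k : Fin a) (j : Fin n) :
    (D a t * V) (.inr k) j = 0 := by
  rw [Matrix.mul_apply]
  simp [D]

theorem DtD (t : Fin n → ℝ) : (D a t)ᵀ * D a t = diagonal (fun i => t i ^ 2) := by
  ext i j
  rw [Matrix.mul_apply, Fintype.sum_sum_type]
  by_cases hij : i = j
  · subst hij
    simp [D, sq]
  · rw [Matrix.diagonal_apply_ne _ hij]
    simp [D]
    intro h
    exact absurd h.symm hij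

theorem stab : S_stab := by
  classical
  intro n a s s' U V hs hs' hU hV h
  have hU' : Uᵀ * U = 1 := mul_eq_one_comm.1 hU
  have hV' : Vᵀ * V = 1 := mul_eq_one_comm.1 hV
  have h1 : U * D a s = D a s' * V := by
    rw [← h, Matrix.mul_assoc, hV', Matrix.mul_one]
  have h2 : (D a s)ᵀ * D a s = Vᵀ * ((D a s')ᵀ * D a s') * V := by
    calc (D a s)ᵀ * D a s = (U * D a s)ᵀ * (U * D a s) := by
          rw [Matrix.transpose_mul, Matrix.mul_assoc, ← Matrix.mul_assoc Uᵀ, hU', Matrix.one_mul]
      _ = (D a s' * V)ᵀ * (D a s' * V) := by rw [h1]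
      _ = _ := by
          rw [Matrix.transpose_mul, Matrix.mul_assoc, Matrix.mul_assoc, Matrix.mul_assoc]
  rw [DtD, DtD] at h2
  have h3 : V * diagonal (fun i => s i ^ 2) = diagonal (fun i => s' i ^ 2) * V := by
    rw [h2, ← Matrix.mul_assoc, ← Matrix.mul_assoc, hV, Matrix.one_mul]
  have h4 : ∀ i j, V i j ≠ 0 → s j = s' i := by
    intro i j hij
    have h5 := congrFun (congrFun h3 i) j
    rw [Matrix.mul_diagonal, Matrix.diagonal_mul, mul_comm] at h5
    have h6 := mul_right_cancel₀ hij h5
    exact (pow_left_inj₀ (hs.1 j).le (hs'.1 i).le (by norm_num)).1 h6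
  have h5 : ∀ i, ∃ j, V i j ≠ 0 := by
    intro i
    by_contra hcon
    push Not at hcon
    have h6 := congrFun (congrFun hV i) i
    rw [Matrix.mul_apply, Matrix.one_apply_eq] at h6
    simp [hcon] at h6
  choose φ hφ using h5
  have hφ' : ∀ i, s (φ i) = s' i := fun i => h4 i _ (hφ i)
  have hmono : StrictMono φ := by
    intro i j hij
    have h6 := hs'.2 hij
    rw [← hφ' i, ← hφ' j] at h6
    exact hs.2.lt_iff_gt.1 h6
  have hid : ∀ i, φ i = i := by
    have hbij : Function.Bijective φ := (Finite.injective_iff_bijective).1 hmono.injective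
    have h8 : (⟨Equiv.ofBijective φ hbij, fun {i j} => hmono.le_iff_le⟩ : Fin n ≃o Fin n) =
        OrderIso.refl _ := Subsingleton.elim _ _
    intro i
    exact congrArg (fun e : Fin n ≃o Fin n => e i) h8
  have hss : s = s' := by
    funext i
    rw [← hφ' i, hid i]
  have hdiag : ∀ i j, i ≠ j → V i j = 0 := by
    intro i j hij
    by_contra hne
    have h6 := h4 i j hne
    rw [← hss] at h6
    exact hij (hs.2.injective h6).symm
  have hVd : V = diagonal (fun i => V i i) := by
    ext i j
    by_cases hij : i = j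
    · subst hij
      rw [Matrix.diagonal_apply_eq]
    · rw [Matrix.diagonal_apply_ne _ hij, hdiag i j hij]
  have he : ∀ i, V i i * V i i = 1 := by
    intro i
    have h6 := congrFun (congrFun hV i) i
    rw [hVd, Matrix.diagonal_transpose, Matrix.diagonal_mul_diagonal, Matrix.diagonal_apply_eq,
      Matrix.one_apply_eq] at h6
    exact h6
  have hUl : ∀ i j, U (.inl i) (.inl j) = if i = j then V i i else 0 := by
    intro i j
    have h6 := congrFun (congrFun h1 (.inl i)) j
    rw [mulD, Dmul_inl, ← hss] at h6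
    have h7 := (hs.1 j).ne'
    split_ifs with hij
    · subst hij
      rw [mul_comm] at h6
      exact mul_left_cancel₀ h7 h6
    · rw [hdiag i j hij, mul_zero] at h6
      exact (mul_eq_zero.1 h6).resolve_right h7
  have hUr : ∀ k j, U (.inr k) (.inl j) = 0 := by
    intro k j
    have h6 := congrFun (congrFun h1 (.inr k)) j
    rw [mulD, Dmul_inr] at h6
    exact (mul_eq_zero.1 h6).resolve_right (hs.1 j).ne'
  refine ⟨hss, fun t => ?_, fun i => V i i, fun i => mul_self_eq_one_iff.1 (he i), hVd, hUl⟩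
  have h6 : U * D a t = D a t * V := by
    ext r j
    rw [mulD]
    rcases r with i | k
    · rw [hUl, Dmul_inl]
      split_ifs with hij
      · subst hij
        ring
      · rw [hdiag i j hij]
        ring
    · rw [hUr, Dmul_inr, zero_mul]
  rw [h6, Matrix.mul_assoc, hV, Matrix.mul_one]

end Pool.Agent.Q251.MXS
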