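import Pool.Agent.Q251.MXCAY
import Pool.Agent.Q251.MXSTAB

/-! Injectivity of the chart (lemma job of helper233). -/

set_option autoImplicit false

open MeasureTheory Matrix Finset
open scoped ENNReal Matrix

namespace Pool.Agent.Q251.MXI

open Pool.Agent.Q233.MX.W Pool.Agent.Q251.MXC Pool.Agent.Q251.MXS

variable {n a : ℕ}

theorem om_skew (H : Mt n a) : (om H)ᵀ = -(om H) := by
  ext r c
  rcases r with i | k <;> rcases c with j | l
  · simp only [transpose_apply, neg_apply, om, of_apply]
    rcases lt_trichotomy i j with h | h | h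
    · simp [h, h.not_gt]
    · subst h
      simp
    · simp [h, h.not_gt]
  · simp [om]
  · simp [om]
  · simp [om]

theorem et_skew (H : Mt n a) : (et H)ᵀ = -(et H) := by
  ext i j
  simp only [transpose_apply, neg_apply, et, of_apply]
  rcases lt_trichotomy i j with h | h | h
  · simp [h, h.not_gt]
  · subst h
    simp
  · simp [h, h.not_gt]

theorem om_off (H : Mt n a) : om (off H) = om H := by
  ext r c
  rcases r with i | k <;> rcases c with j | l
  · simp only [om, off, of_apply, Sum.inl.injEq]
    rcases lt_trichotomy i j with h | h | h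
    · simp [h, h.ne]
    · subst h
      simp
    · simp [h, h.ne', h.not_gt, h.ne]
  · simp [om, off]
  · simp [om, off]
  · simp [om]

theorem et_off (H : Mt n a) : et (off H) = et H := by
  ext i j
  simp only [et, off, of_apply, Sum.inl.injEq]
  rcases lt_trichotomy i j with h | h | h
  · simp [h, h.ne, h.not_gt, h.ne']
  · subst h
    simp
  · simp [h, h.ne', h.not_gt, h.ne]

theorem cont_et : Continuous (fun H : Mt n a => et H) := by
  apply continuous_matrix
  intro i j
  simp only [et, of_apply]
  rcases lt_trichotomy i j with h | h | h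
  · simp only [h, h.not_gt, if_true, if_false]
    fun_prop
  · subst h
    simp only [lt_irrefl, if_false]
    fun_prop
  · simp only [h, if_true]
    fun_prop

theorem cont_cay (i : Fin n) : Continuous (fun H : Mt n a => cay (et H) i i) := by
  have h1 : Continuous (fun H : Mt n a => (1 + et H)) := continuous_const.add cont_et
  have h2 : Continuous (fun H : Mt n a => (1 + et H)⁻¹) := by
    have h3 : ∀ H : Mt n a, (1 + et H)⁻¹ = ((1 + et H).det)⁻¹ • (1 + et H).adjugate := by
      intro H
      rw [Matrix.inv_def, Ring.inverse_eq_inv']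
    simp_rw [h3]
    refine Continuous.smul (Continuous.inv₀ h1.matrix_det ?_) h1.matrix_adjugate
    intro H
    have := (Matrix.isUnit_iff_isUnit_det _).1 (unit_one_add (et H) (et_skew H))
    exact this.ne_zero
  have h4 : Continuous (fun H : Mt n a => cay (et H)) := by
    unfold cay
    exact (continuous_const.sub cont_et).matrix_mul h2
  exact (continuous_apply i).comp ((continuous_apply i).comp h4)

/-- the upper left block of the inverse of `1 + X` is not singular -/
theorem block (X : Matrix (Fin n ⊕ Fin a) (Fin n ⊕ Fin a) ℝ) (hX : Xᵀ = -X) :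
    (Matrix.of (fun i j : Fin n => (1 + X)⁻¹ (.inl i) (.inl j))).det ≠ 0 := by
  intro h0
  obtain ⟨v, hv, h1⟩ := Matrix.exists_mulVec_eq_zero_iff.2 h0
  have hu := (Matrix.isUnit_iff_isUnit_det _).1 (unit_one_add X hX)
  set vt : Fin n ⊕ Fin a → ℝ := Sum.elim v 0 with hvt
  set y := (1 + X)⁻¹ *ᵥ vt with hy
  have h2 : (1 + X) *ᵥ y = vt := by
    rw [hy, Matrix.mulVec_mulVec, Matrix.mul_nonsing_inv _ hu, Matrix.one_mulVec]
  have h3 : vt ⬝ᵥ y = 0 := by
    rw [dotProduct, Fintype.sum_sum_type]
    have h4 : ∀ i, y (.inl i) = 0 := by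
      intro i
      have h5 := congrFun h1 i
      rw [hy, Matrix.mulVec, dotProduct, Fintype.sum_sum_type]
      rw [Matrix.mulVec, dotProduct] at h5
      simp only [hvt, Sum.elim_inl, Sum.elim_inr, Pi.zero_apply, mul_zero, Finset.sum_const_zero,
        add_zero]
      exact h5
    simp [h4, hvt]
  rw [← h2, dotProduct_comm, Matrix.add_mulVec, Matrix.one_mulVec, dotProduct_add,
    skew_dot X hX, add_zero, dotProduct_self_eq_zero] at h3
  rw [h3, Matrix.mulVec_zero] at h2
  apply hv
  funext i
  have := congrFun h2 (.inl i)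
  simpa [hvt] using this.symm

theorem inj' : S_inj := by
  intro n a
  refine ⟨{K : Mt n a | ∀ i, 0 < cay (et K) i i}, ?_, ?_, ?_⟩
  · have h1 : {K : Mt n a | ∀ i, 0 < cay (et K) i i} = ⋂ i, {K : Mt n a | 0 < cay (et K) i i} := by
      ext K
      simp
    rw [h1]
    exact isOpen_iInter_of_finite (fun i => isOpen_lt continuous_const (cont_cay i))
  · intro i
    have h1 : et (0 : Mt n a) = 0 := by
      ext i j
      simp [et]
    rw [h1]
    unfold cay
    simp
  · rintro H ⟨hH1, hH2⟩ H' ⟨hH1', hH2'⟩ heq
    have hp : ∀ i, 0 < cay (et H) i i := by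
      intro i
      have := hH1 i
      rwa [et_off] at this
    have hp' : ∀ i, 0 < cay (et H') i i := by
      intro i
      have := hH1' i
      rwa [et_off] at this
    obtain ⟨-, hP, hPi⟩ := cay_thm _ (om H) (om_skew H)
    obtain ⟨-, hQ, hQi⟩ := cay_thm _ (et H) (et_skew H)
    obtain ⟨-, hP', -⟩ := cay_thm _ (om H') (om_skew H')
    obtain ⟨-, hQ', -⟩ := cay_thm _ (et H') (et_skew H')
    have heq' : cay (om H) * D a (dgl H) * (cay (et H))ᵀ =
        cay (om H') * D a (dgl H') * (cay (et H'))ᵀ := by
      have := heq
      unfold Psi at this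
      exact Matrix.of.symm.injective this
    set P := cay (om H) with hPd
    set Q := cay (et H) with hQd
    set P' := cay (om H') with hPd'
    set Q' := cay (et H') with hQd'
    have hPt := mul_eq_one_comm.1 hP
    have hQt := mul_eq_one_comm.1 hQ
    have hPt' := mul_eq_one_comm.1 hP'
    have hQt' := mul_eq_one_comm.1 hQ'
    obtain ⟨hs, hst, e, he, hVd, hUl⟩ := stab n a (dgl H) (dgl H') (P'ᵀ * P) (Q'ᵀ * Q) hH2 hH2'
      (by
        rw [Matrix.transpose_mul, Matrix.transpose_transpose]
        calc P'ᵀ * P * (Pᵀ * P') = P'ᵀ * (P * Pᵀ) * P' := by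
              rw [Matrix.mul_assoc, Matrix.mul_assoc, Matrix.mul_assoc]
          _ = 1 := by rw [hP, Matrix.mul_one, hPt'])
      (by
        rw [Matrix.transpose_mul, Matrix.transpose_transpose]
        calc Q'ᵀ * Q * (Qᵀ * Q') = Q'ᵀ * (Q * Qᵀ) * Q' := by
              rw [Matrix.mul_assoc, Matrix.mul_assoc, Matrix.mul_assoc]
          _ = 1 := by rw [hQ, Matrix.mul_one, hQt'])
      (by
        rw [Matrix.transpose_mul, Matrix.transpose_transpose]
        calc P'ᵀ * P * D a (dgl H) * (Qᵀ * Q') = P'ᵀ * (P * D a (dgl H) * Qᵀ) * Q' := by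
              simp only [Matrix.mul_assoc]
          _ = P'ᵀ * (P' * D a (dgl H') * Q'ᵀ) * Q' := by rw [heq']
          _ = (P'ᵀ * P') * D a (dgl H') * (Q'ᵀ * Q') := by simp only [Matrix.mul_assoc]
          _ = _ := by rw [hPt', hQt', Matrix.one_mul, Matrix.mul_one])
    -- the signs
    have hQe : Q = Q' * diagonal e := by
      rw [← hVd, ← Matrix.mul_assoc, hQ', Matrix.one_mul]
    have he1 : ∀ i, e i = 1 := by
      intro i
      rcases he i with h | h
      · exact h
      · exfalso
        have h1 := congrFun (congrFun hQe i) i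
        rw [Matrix.mul_diagonal, h] at h1
        have := hp i
        have := hp' i
        linarith
    have hd1 : diagonal e = (1 : Matrix (Fin n) (Fin n) ℝ) := by
      rw [← Matrix.diagonal_one]
      congr 1
      funext i
      exact he1 i
    rw [hd1, Matrix.mul_one] at hQe
    have hetH : et H = et H' := hQi (et H') (et_skew H') hQe
    -- the first columns of P, P'
    have hcol : ∀ j, ∀ r, (P'ᵀ * P) r (.inl j) = (1 : Matrix (Fin n ⊕ Fin a) (Fin n ⊕ Fin a) ℝ) r (.inl j) := by
      intro j r
      have h1 := hst (fun _ => 1)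
      rw [hVd, hd1, Matrix.transpose_one, Matrix.mul_one] at h1
      have h2 := congrFun (congrFun h1 r) j
      rw [mulD, mul_one] at h2
      rw [h2]
      rcases r with i | k
      · simp [D, Matrix.one_apply]
      · simp [D]
    have hcol2 : ∀ j r, P r (.inl j) = P' r (.inl j) := by
      intro j r
      have h1 : P = P' * (P'ᵀ * P) := by
        rw [← Matrix.mul_assoc, hP', Matrix.one_mul]
      have h2 : P r (.inl j) = (P' * (P'ᵀ * P)) r (.inl j) := by rw [← h1]
      rw [h2, Matrix.mul_apply]
      rw [Finset.sum_congr rfl (fun c _ => by rw [hcol j c])]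
      simp [Matrix.one_apply]
    have hX := om_skew H
    have hX' := om_skew H'
    have hinv : ∀ j r, (1 + om H)⁻¹ r (.inl j) = (1 + om H')⁻¹ r (.inl j) := by
      intro j r
      have h1 := hcol2 j r
      rw [hPd, hPd', cay_eq _ hX, cay_eq _ hX'] at h1
      simp only [Matrix.sub_apply, Matrix.smul_apply, smul_eq_mul] at h1
      linarith
    have hu := (Matrix.isUnit_iff_isUnit_det _).1 (unit_one_add (om H) hX)
    have hu' := (Matrix.isUnit_iff_isUnit_det _).1 (unit_one_add (om H') hX')
    have hker : ∀ j r, ((om H - om H') * (1 + om H)⁻¹) r (.inl j) = 0 := by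
      intro j r
      have h1 : om H - om H' = (1 + om H) - (1 + om H') := by abel
      rw [h1, Matrix.sub_mul, Matrix.mul_nonsing_inv _ hu, Matrix.sub_apply]
      have h2 : ((1 + om H') * (1 + om H)⁻¹) r (.inl j) = ((1 + om H') * (1 + om H')⁻¹) r (.inl j) := by
        rw [Matrix.mul_apply, Matrix.mul_apply]
        exact Finset.sum_congr rfl (fun c _ => by rw [hinv j c])
      rw [h2, Matrix.mul_nonsing_inv _ hu', sub_self]
    set V1 : Matrix (Fin n) (Fin n) ℝ :=
      Matrix.of (fun i j : Fin n => (1 + om H)⁻¹ (.inl i) (.inl j)) with hV1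
    have hV1u : IsUnit V1.det := isUnit_iff_ne_zero.2 (block (om H) hX)
    have hz : ∀ k i, H (.inr k) i = H' (.inr k) i := by
      have h1 : (Matrix.of (fun (k : Fin a) (i : Fin n) => H (.inr k) i - H' (.inr k) i)) * V1 = 0 := by
        ext k j
        have h2 := hker j (.inr k)
        rw [Matrix.mul_apply, Fintype.sum_sum_type] at h2
        rw [Matrix.mul_apply, Matrix.zero_apply]
        rw [← h2]
        simp [om, hV1]
      have h2 : (Matrix.of (fun (k : Fin a) (i : Fin n) => H (.inr k) i - H' (.inr k) i)) = 0 := by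
        calc _ = (Matrix.of (fun (k : Fin a) (i : Fin n) => H (.inr k) i - H' (.inr k) i)) *
            (V1 * V1⁻¹) := by rw [Matrix.mul_nonsing_inv _ hV1u, Matrix.mul_one]
          _ = 0 := by rw [← Matrix.mul_assoc, h1, Matrix.zero_mul]
      intro k i
      have h3 := congrFun (congrFun h2 k) i
      simp only [of_apply, Matrix.zero_apply] at h3
      linarith
    have hx : ∀ i j : Fin n, om H (.inl i) (.inl j) = om H' (.inl i) (.inl j) := by
      have h1 : (Matrix.of (fun (i j : Fin n) => om H (.inl i) (.inl j) - om H' (.inl i) (.inl j))) * V1 = 0 := by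
        ext i j
        have h2 := hker j (.inl i)
        rw [Matrix.mul_apply, Fintype.sum_sum_type] at h2
        rw [Matrix.mul_apply, Matrix.zero_apply]
        rw [← h2]
        have h3 : ∑ k, (om H - om H') (.inl i) (.inr k) * (1 + om H)⁻¹ (.inr k) (.inl j) = 0 := by
          apply Finset.sum_eq_zero
          intro k _
          have : (om H - om H') (.inl i) (.inr k) = 0 := by
            rw [Matrix.sub_apply]
            simp only [om, of_apply]
            rw [hz k i]
            ring
          rw [this, zero_mul]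
        rw [h3, add_zero]
        rfl
      have h2 : (Matrix.of (fun (i j : Fin n) => om H (.inl i) (.inl j) - om H' (.inl i) (.inl j))) = 0 := by
        calc _ = (Matrix.of (fun (i j : Fin n) => om H (.inl i) (.inl j) - om H' (.inl i) (.inl j))) *
            (V1 * V1⁻¹) := by rw [Matrix.mul_nonsing_inv _ hV1u, Matrix.mul_one]
          _ = 0 := by rw [← Matrix.mul_assoc, h1, Matrix.zero_mul]
      intro i j
      have h3 := congrFun (congrFun h2 i) j
      simp only [of_apply, Matrix.zero_apply] at h3
      linarith
    -- all the entries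
    funext r j
    rcases r with i | k
    · rcases lt_trichotomy i j with h | h | h
      · have h1 := hx i j
        simp only [om, of_apply, h, if_true] at h1
        exact h1
      · subst h
        exact congrFun hs i
      · have h1 := congrFun (congrFun hetH i) j
        simp only [et, of_apply, h, if_true] at h1
        exact h1
    · exact hz k j

theorem inj (_ : S_cay) (_ : S_stab) : S_inj := inj'

end Pool.Agent.Q251.MXI
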