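import Pool.Agent.Q251.MXINJ

/-! The Jacobian of the chart (lemma job of helper233). -/

set_option autoImplicit false

open MeasureTheory Matrix Finset
open scoped ENNReal Matrix

namespace Pool.Agent.Q251.MXJ

open Pool.Agent.Q233.MX.W Pool.Agent.Q251.MXC Pool.Agent.Q251.MXS Pool.Agent.Q251.MXI

variable {n a : ℕ}

/-! ### the derivative of the inverse -/

section inv

attribute [local instance] Matrix.linftyOpNormedRing Matrix.linftyOpNormedAlgebra

theorem inv_deriv {E : Type} [NormedAddCommGroup E] [NormedSpace ℝ E] [FiniteDimensional ℝ E]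
    {κ : Type} [Fintype κ] [DecidableEq κ] (A : E →ₗ[ℝ] Matrix κ κ ℝ) (H : E)
    (hu : IsUnit (1 + A H)) (r c : κ) (L : E →ₗ[ℝ] ℝ)
    (hL : ∀ K, L K = -(((1 + A H)⁻¹ * A K * (1 + A H)⁻¹) r c)) :
    HasFDerivAt (fun H => (1 + A H)⁻¹ r c) (LinearMap.toContinuousLinearMap L) H := by
  have : CompleteSpace (Matrix κ κ ℝ) := FiniteDimensional.complete ℝ _
  obtain ⟨u, hu'⟩ := hu
  have h1 : HasFDerivAt (fun H => 1 + A H) (LinearMap.toContinuousLinearMap A) H :=
    ((LinearMap.toContinuousLinearMap A).hasFDerivAt).const_add 1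
  have h2 : HasFDerivAt Ring.inverse (-ContinuousLinearMap.mulLeftRight ℝ (Matrix κ κ ℝ)
      ((u⁻¹ : (Matrix κ κ ℝ)ˣ) : Matrix κ κ ℝ) ((u⁻¹ : (Matrix κ κ ℝ)ˣ) : Matrix κ κ ℝ))
      (1 + A H) := by
    rw [← hu']
    exact hasFDerivAt_ringInverse u
  have h3 := h2.comp H h1
  obtain ⟨ent, hent⟩ : ∃ ent : Matrix κ κ ℝ →ₗ[ℝ] ℝ, ∀ M, ent M = M r c :=
    ⟨{ toFun := fun M => M r c, map_add' := fun _ _ => rfl, map_smul' := fun _ _ => rfl },
      fun _ => rfl⟩
  have h4 := ((LinearMap.toContinuousLinearMap ent).hasFDerivAt).comp H h3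
  have h5 : (fun H => (1 + A H)⁻¹ r c) = (⇑(LinearMap.toContinuousLinearMap ent) ∘
      (Ring.inverse ∘ fun H => 1 + A H)) := by
    funext H
    simp only [Function.comp, LinearMap.coe_toContinuousLinearMap']
    rw [hent, Matrix.nonsing_inv_eq_ringInverse]
  have hui : ((u⁻¹ : (Matrix κ κ ℝ)ˣ) : Matrix κ κ ℝ) = (1 + A H)⁻¹ := by
    rw [← hu', Matrix.coe_units_inv]
  rw [h5]
  refine h4.congr_fderiv ?_
  ext K
  change ent (-(((u⁻¹ : (Matrix κ κ ℝ)ˣ) : Matrix κ κ ℝ) * A K *
    ((u⁻¹ : (Matrix κ κ ℝ)ˣ) : Matrix κ κ ℝ))) = L K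
  rw [hent, hL, hui]
  rfl

end inv

/-! ### determinants of linear maps -/

theorem cont_det {X E : Type} [TopologicalSpace X] [NormedAddCommGroup E] [NormedSpace ℝ E]
    [FiniteDimensional ℝ E] (F : X → E →ₗ[ℝ] E) (h : ∀ K, Continuous fun x => F x K) :
    Continuous fun x => LinearMap.det (F x) := by
  classical
  let b := Module.finBasis ℝ E
  have h1 : ∀ x, LinearMap.det (F x) = (LinearMap.toMatrix b b (F x)).det := fun x =>
    (LinearMap.det_toMatrix b (F x)).symm
  simp_rw [h1]
  apply Continuous.matrix_det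
  apply continuous_matrix
  intro i j
  simp_rw [LinearMap.toMatrix_apply]
  exact ((b.coord i).continuous_of_finiteDimensional).comp (h (b j))

/-- multiplication of the entries by numbers -/
def Esc (d : Fin n ⊕ Fin a → Fin n → ℝ) : Mt n a →ₗ[ℝ] Mt n a where
  toFun H := fun r c => d r c * H r c
  map_add' H K := by
    funext r c
    simp only [Pi.add_apply]
    ring
  map_smul' t H := by
    funext r c
    simp only [Pi.smul_apply, smul_eq_mul, RingHom.id_apply]
    ring

theorem det_Esc (d : Fin n ⊕ Fin a → Fin n → ℝ) :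
    LinearMap.det (Esc d) = ∏ r, ∏ c, d r c := by
  have h1 : Esc d = LinearMap.pi fun r => (LinearMap.pi fun c =>
      ((d r c • (LinearMap.id : ℝ →ₗ[ℝ] ℝ)).comp (LinearMap.proj c))).comp (LinearMap.proj r) := by
    ext H r c
    simp [Esc]
  rw [h1, LinearMap.det_pi]
  apply Finset.prod_congr rfl
  intro r _
  rw [LinearMap.det_pi]
  apply Finset.prod_congr rfl
  intro c _
  rw [LinearMap.det_smul]
  simp

/-- sums and differences of the opposite entries -/
def Aop : Mt n a →ₗ[ℝ] Mt n a where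
  toFun H := fun r c => match r with
    | .inl i => if i < c then H (.inl i) c + H (.inl c) i else
        if c < i then H (.inl i) c - H (.inl c) i else H (.inl i) c
    | .inr k => H (.inr k) c
  map_add' H K := by
    funext r c
    rcases r with i | k
    · simp only [Pi.add_apply]
      split_ifs <;> ring
    · rfl
  map_smul' t H := by
    funext r c
    rcases r with i | k
    · simp only [Pi.smul_apply, smul_eq_mul, RingHom.id_apply]
      split_ifs <;> ring
    · rfl

/-- half sums and half differences of the opposite entries -/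
noncomputable def Bop : Mt n a →ₗ[ℝ] Mt n a where
  toFun H := fun r c => match r with
    | .inl i => if i < c then (H (.inl i) c + H (.inl c) i) / 2 else
        if c < i then (H (.inl i) c - H (.inl c) i) / 2 else H (.inl i) c
    | .inr k => H (.inr k) c
  map_add' H K := by
    funext r c
    rcases r with i | k
    · simp only [Pi.add_apply]
      split_ifs <;> ring
    · rfl
  map_smul' t H := by
    funext r c
    rcases r with i | k
    · simp only [Pi.smul_apply, smul_eq_mul, RingHom.id_apply]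
      split_ifs <;> ring
    · rfl

theorem AB_inj : Function.Injective (Aop : Mt n a →ₗ[ℝ] Mt n a) ∧
    Function.Injective (Bop : Mt n a →ₗ[ℝ] Mt n a) := by
  constructor
  · rw [← LinearMap.ker_eq_bot, LinearMap.ker_eq_bot']
    intro H h
    have h1 : ∀ r c, Aop H r c = 0 := fun r c => by rw [h]; rfl
    funext r c
    rcases r with i | k
    · rcases lt_trichotomy i c with hic | hic | hic
      · have e1 := h1 (.inl i) c
        have e2 := h1 (.inl c) i
        simp only [Aop, LinearMap.coe_mk, AddHom.coe_mk, hic, hic.not_gt, if_true, if_false] at e1 e2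
        show H (.inl i) c = 0
        linarith
      · have e1 := h1 (.inl i) c
        subst hic
        simp only [Aop, LinearMap.coe_mk, AddHom.coe_mk, lt_irrefl, if_false] at e1
        exact e1
      · have e1 := h1 (.inl i) c
        have e2 := h1 (.inl c) i
        simp only [Aop, LinearMap.coe_mk, AddHom.coe_mk, hic, hic.not_gt, if_true, if_false] at e1 e2
        show H (.inl i) c = 0
        linarith
    · exact h1 (.inr k) c
  · rw [← LinearMap.ker_eq_bot, LinearMap.ker_eq_bot']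
    intro H h
    have h1 : ∀ r c, Bop H r c = 0 := fun r c => by rw [h]; rfl
    funext r c
    rcases r with i | k
    · rcases lt_trichotomy i c with hic | hic | hic
      · have e1 := h1 (.inl i) c
        have e2 := h1 (.inl c) i
        simp only [Bop, LinearMap.coe_mk, AddHom.coe_mk, hic, hic.not_gt, if_true, if_false] at e1 e2
        show H (.inl i) c = 0
        linarith
      · have e1 := h1 (.inl i) c
        subst hic
        simp only [Bop, LinearMap.coe_mk, AddHom.coe_mk, lt_irrefl, if_false] at e1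
        exact e1
      · have e1 := h1 (.inl i) c
        have e2 := h1 (.inl c) i
        simp only [Bop, LinearMap.coe_mk, AddHom.coe_mk, hic, hic.not_gt, if_true, if_false] at e1 e2
        show H (.inl i) c = 0
        linarith
    · exact h1 (.inr k) c

theorem det_ne {E : Type} [AddCommGroup E] [Module ℝ E] [FiniteDimensional ℝ E] (f : E →ₗ[ℝ] E)
    (hf : Function.Injective f) : LinearMap.det f ≠ 0 := by
  intro h0
  have h1 := LinearMap.bot_lt_ker_of_det_eq_zero h0
  rw [LinearMap.ker_eq_bot.2 hf] at h1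
  exact lt_irrefl _ h1

/-- the factors -/
def dd (s : Fin n → ℝ) (r : Fin n ⊕ Fin a) (c : Fin n) : ℝ := match r with
  | .inl i => if i < c then s i + s c else if c < i then s c - s i else 1
  | .inr _ => s c

theorem prod_dd (s : Fin n → ℝ) : ∏ r : Fin n ⊕ Fin a, ∏ c, dd s r c = w a s := by
  rw [Fintype.prod_sum_type]
  unfold w
  congr 1
  · have h1 : ∀ i c : Fin n, dd (a := a) s (.inl i) c =
        (if i < c then s i + s c else 1) * (if c < i then s c - s i else 1) := by
      intro i c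
      simp only [dd]
      rcases lt_trichotomy i c with h | h | h
      · simp [h, h.not_gt]
      · subst h
        simp
      · simp [h, h.not_gt]
    rw [Finset.prod_congr rfl (fun i _ => Finset.prod_congr rfl (fun c _ => h1 i c))]
    simp_rw [Finset.prod_mul_distrib]
    rw [Finset.prod_comm (f := fun i c : Fin n => if c < i then s c - s i else 1),
      ← Finset.prod_mul_distrib]
    apply Finset.prod_congr rfl
    intro i _
    rw [← Finset.prod_mul_distrib, ← Finset.prod_filter_mul_prod_filter_not univ (fun c => i < c)]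
    have h2 : (univ : Finset (Fin n)).filter (fun c => i < c) = Finset.Ioi i := by
      ext c
      simp
    rw [h2]
    have h3 : ∏ x ∈ (univ : Finset (Fin n)).filter (fun c => ¬ i < c),
        ((if i < x then s i + s x else 1) * (if i < x then s i - s x else 1)) = 1 := by
      apply Finset.prod_eq_one
      intro x hx
      rw [mem_filter] at hx
      simp [hx.2]
    rw [h3, mul_one]
    apply Finset.prod_congr rfl
    intro x hx
    rw [Finset.mem_Ioi] at hx
    simp only [hx, if_true]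
    ring
  · simp only [dd]
    rw [Finset.prod_const, Finset.card_univ, Fintype.card_fin, Finset.prod_pow]

/-- the middle factor of the derivative -/
noncomputable def Top (s : Fin n → ℝ) : Mt n a →ₗ[ℝ] Mt n a := Bop ∘ₗ Esc (dd s) ∘ₗ Aop

theorem det_Top (s : Fin n → ℝ) : LinearMap.det (Top s : Mt n a →ₗ[ℝ] Mt n a) =
    LinearMap.det (Bop : Mt n a →ₗ[ℝ] Mt n a) * (w a s * LinearMap.det (Aop : Mt n a →ₗ[ℝ] Mt n a)) := by
  unfold Top
  rw [LinearMap.det_comp, LinearMap.det_comp, det_Esc, prod_dd]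

/-- assembling a matrix -/
def enc (ω : Matrix (Fin n ⊕ Fin a) (Fin n ⊕ Fin a) ℝ) (η : Matrix (Fin n) (Fin n) ℝ)
    (d : Fin n → ℝ) : Mt n a := fun r c => match r with
  | .inl i => if i < c then ω (.inl i) (.inl c) else if c < i then η i c else d i
  | .inr k => ω (.inr k) (.inl c)

theorem Top_enc (s d : Fin n → ℝ) (ω : Matrix (Fin n ⊕ Fin a) (Fin n ⊕ Fin a) ℝ)
    (η : Matrix (Fin n) (Fin n) ℝ) (hω : ωᵀ = -ω) (hη : ηᵀ = -η) :
    Matrix.of (Top s (enc ω η d)) = ω * D a s + D a d - D a s * η := by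
  have h1 : ∀ r c, ω r c = -ω c r := by
    intro r c
    have := congrFun (congrFun hω c) r
    simpa using this
  have h2 : ∀ r c, η r c = -η c r := by
    intro r c
    have := congrFun (congrFun hη c) r
    simpa using this
  ext r c
  rw [Matrix.sub_apply, Matrix.add_apply, mulD]
  rcases r with i | k
  · rw [Dmul_inl]
    rcases lt_trichotomy i c with h | h | h
    · simp only [Top, Bop, Esc, Aop, enc, dd, LinearMap.comp_apply, LinearMap.coe_mk, AddHom.coe_mk,
        of_apply, h, h.not_gt, if_true, if_false, D, Sum.elim_inl, h.ne]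
      rw [h2 c i]
      ring
    · subst h
      simp only [Top, Bop, Esc, Aop, enc, dd, LinearMap.comp_apply, LinearMap.coe_mk, AddHom.coe_mk,
        of_apply, lt_irrefl, if_true, if_false, D, Sum.elim_inl]
      have e1 := h1 (.inl i) (.inl i)
      have e2 := h2 i i
      have e3 : ω (.inl i) (.inl i) = 0 := by linarith
      have e4 : η i i = 0 := by linarith
      rw [e3, e4]
      ring
    · simp only [Top, Bop, Esc, Aop, enc, dd, LinearMap.comp_apply, LinearMap.coe_mk, AddHom.coe_mk,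
        of_apply, h, h.not_gt, if_true, if_false, D, Sum.elim_inl, h.ne']
      rw [h1 (.inl c) (.inl i)]
      ring
  · rw [Dmul_inr]
    simp only [Top, Bop, Esc, Aop, enc, dd, LinearMap.comp_apply, LinearMap.coe_mk, AddHom.coe_mk,
        of_apply, D, Sum.elim_inr]
    ring

/-! ### the outer factors -/

theorem om_add (H K : Mt n a) : om (H + K) = om H + om K := by
  ext r c
  rcases r with i | k <;> rcases c with j | l
  · simp only [om, of_apply, Matrix.add_apply, Pi.add_apply]
    split_ifs <;> ring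
  · simp only [om, of_apply, Matrix.add_apply, Pi.add_apply]
    ring
  · simp only [om, of_apply, Matrix.add_apply, Pi.add_apply]
  · simp [om]

theorem om_smul (t : ℝ) (H : Mt n a) : om (t • H) = t • om H := by
  ext r c
  rcases r with i | k <;> rcases c with j | l
  · simp only [om, of_apply, Matrix.smul_apply, Pi.smul_apply, smul_eq_mul]
    split_ifs <;> ring
  · simp only [om, of_apply, Matrix.smul_apply, Pi.smul_apply, smul_eq_mul]
    ring
  · simp only [om, of_apply, Matrix.smul_apply, Pi.smul_apply, smul_eq_mul]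
  · simp [om]

theorem et_add (H K : Mt n a) : et (H + K) = et H + et K := by
  ext i j
  simp only [et, of_apply, Matrix.add_apply, Pi.add_apply]
  split_ifs <;> ring

theorem et_smul (t : ℝ) (H : Mt n a) : et (t • H) = t • et H := by
  ext i j
  simp only [et, of_apply, Matrix.smul_apply, Pi.smul_apply, smul_eq_mul]
  split_ifs <;> ring

noncomputable def omL : Mt n a →ₗ[ℝ] Matrix (Fin n ⊕ Fin a) (Fin n ⊕ Fin a) ℝ where
  toFun := om
  map_add' := om_add
  map_smul' := om_smul

noncomputable def etL : Mt n a →ₗ[ℝ] Matrix (Fin n) (Fin n) ℝ where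
  toFun := et
  map_add' := et_add
  map_smul' := et_smul

/-- multiplication from both sides -/
noncomputable def LL (P : Matrix (Fin n ⊕ Fin a) (Fin n ⊕ Fin a) ℝ) (Q : Matrix (Fin n) (Fin n) ℝ) :
    Mt n a →ₗ[ℝ] Mt n a where
  toFun M := Matrix.of.symm (P * Matrix.of M * Qᵀ)
  map_add' M N := by
    have h : Matrix.of (M + N) = Matrix.of M + Matrix.of N := rfl
    rw [h, Matrix.mul_add, Matrix.add_mul]
    rfl
  map_smul' t M := by
    have h : Matrix.of (t • M) = t • Matrix.of M := rfl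
    rw [h, Matrix.mul_smul, Matrix.smul_mul]
    rfl

theorem enc_add (ω ω' : Matrix (Fin n ⊕ Fin a) (Fin n ⊕ Fin a) ℝ) (η η' : Matrix (Fin n) (Fin n) ℝ)
    (d d' : Fin n → ℝ) : enc (ω + ω') (η + η') (d + d') = enc ω η d + enc ω' η' d' := by
  funext r c
  rcases r with i | k
  · simp only [enc, Matrix.add_apply, Pi.add_apply]
    split_ifs <;> ring
  · simp only [enc, Matrix.add_apply, Pi.add_apply]

theorem enc_smul (t : ℝ) (ω : Matrix (Fin n ⊕ Fin a) (Fin n ⊕ Fin a) ℝ) (η : Matrix (Fin n) (Fin n) ℝ)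
    (d : Fin n → ℝ) : enc (t • ω) (t • η) (t • d) = t • enc ω η d := by
  funext r c
  rcases r with i | k
  · simp only [enc, Matrix.smul_apply, Pi.smul_apply, smul_eq_mul]
    split_ifs <;> ring
  · simp only [enc, Matrix.smul_apply, Pi.smul_apply, smul_eq_mul]

/-- the inner factor -/
noncomputable def Qop (R : Matrix (Fin n ⊕ Fin a) (Fin n ⊕ Fin a) ℝ) (S : Matrix (Fin n) (Fin n) ℝ) :
    Mt n a →ₗ[ℝ] Mt n a where
  toFun K := enc ((-2 : ℝ) • (Rᵀ * om K * R)) ((-2 : ℝ) • (Sᵀ * et K * S)) (dgl K)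
  map_add' K K' := by
    rw [← enc_add, om_add, et_add, Matrix.mul_add, Matrix.mul_add, Matrix.add_mul, Matrix.add_mul,
      smul_add, smul_add]
    rfl
  map_smul' t K := by
    rw [RingHom.id_apply, ← enc_smul, om_smul, et_smul, Matrix.mul_smul, Matrix.mul_smul,
      Matrix.smul_mul, Matrix.smul_mul, smul_comm t, smul_comm t]
    rfl

theorem skew_conj {κ : Type} [Fintype κ] [DecidableEq κ] (R K : Matrix κ κ ℝ) (hK : Kᵀ = -K) :
    ((-2 : ℝ) • (Rᵀ * K * R))ᵀ = -((-2 : ℝ) • (Rᵀ * K * R)) := by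
  rw [Matrix.transpose_smul, Matrix.transpose_mul, Matrix.transpose_mul, Matrix.transpose_transpose,
    hK, Matrix.neg_mul, Matrix.mul_neg, ← Matrix.mul_assoc]
  simp

theorem cay_mul {κ : Type} [Fintype κ] [DecidableEq κ] (X : Matrix κ κ ℝ) (hX : Xᵀ = -X) :
    cay X * ((1 + X)⁻¹)ᵀ = (1 + X)⁻¹ := by
  have hX' : (-X)ᵀ = -(-X) := by rw [Matrix.transpose_neg, hX]
  have hm : IsUnit (1 - X) := by
    have := unit_one_add (-X) hX'
    rwa [← sub_eq_add_neg] at this
  have hmd := (Matrix.isUnit_iff_isUnit_det _).1 hm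
  rw [Matrix.transpose_nonsing_inv, Matrix.transpose_add, Matrix.transpose_one, hX,
    ← sub_eq_add_neg]
  have h2 : (1 + X)⁻¹ * (1 - X)⁻¹ = (1 - X)⁻¹ * (1 + X)⁻¹ := by
    rw [← Matrix.mul_inv_rev, ← Matrix.mul_inv_rev]
    congr 1
    noncomm_ring
  unfold cay
  rw [Matrix.mul_assoc, h2, ← Matrix.mul_assoc, Matrix.mul_nonsing_inv _ hmd, Matrix.one_mul]

theorem cay_conj {κ : Type} [Fintype κ] [DecidableEq κ] (X K : Matrix κ κ ℝ) (hX : Xᵀ = -X) :
    cay X * ((-2 : ℝ) • (((1 + X)⁻¹)ᵀ * K * (1 + X)⁻¹)) =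
      (-2 : ℝ) • ((1 + X)⁻¹ * K * (1 + X)⁻¹) := by
  rw [Matrix.mul_smul, ← Matrix.mul_assoc, ← Matrix.mul_assoc, cay_mul X hX]

/-- the derivative of the chart -/
noncomputable def Ps (H : Mt n a) : Mt n a →ₗ[ℝ] Mt n a :=
  LL (cay (om H)) (cay (et H)) ∘ₗ Top (dgl H) ∘ₗ Qop ((1 + om H)⁻¹) ((1 + et H)⁻¹)

theorem Ps_apply (H K : Mt n a) (r : Fin n ⊕ Fin a) (c : Fin n) : Ps H K r c =
    ∑ m, (((-2 : ℝ) • ((1 + om H)⁻¹ * om K * (1 + om H)⁻¹)) r (.inl m) * dgl H m * cay (et H) c m +
      cay (om H) r (.inl m) * dgl K m * cay (et H) c m +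
      cay (om H) r (.inl m) * dgl H m * ((-2 : ℝ) • ((1 + et H)⁻¹ * et K * (1 + et H)⁻¹)) c m) := by
  have h1 : Matrix.of (Ps H K) = cay (om H) * (((-2 : ℝ) • (((1 + om H)⁻¹)ᵀ * om K * (1 + om H)⁻¹)) *
      D a (dgl H) + D a (dgl K) - D a (dgl H) * ((-2 : ℝ) • (((1 + et H)⁻¹)ᵀ * et K * (1 + et H)⁻¹))) *
      (cay (et H))ᵀ := by
    rw [← Top_enc _ _ _ _ (skew_conj _ _ (om_skew K)) (skew_conj _ _ (et_skew K))]
    rfl
  set ω := (-2 : ℝ) • (((1 + om H)⁻¹)ᵀ * om K * (1 + om H)⁻¹) with hω
  set η := (-2 : ℝ) • (((1 + et H)⁻¹)ᵀ * et K * (1 + et H)⁻¹) with hη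
  have h2 : cay (om H) * ω = (-2 : ℝ) • ((1 + om H)⁻¹ * om K * (1 + om H)⁻¹) :=
    cay_conj _ _ (om_skew H)
  have h3 : cay (et H) * η = (-2 : ℝ) • ((1 + et H)⁻¹ * et K * (1 + et H)⁻¹) :=
    cay_conj _ _ (et_skew H)
  have h4 : -(η * (cay (et H))ᵀ) = (cay (et H) * η)ᵀ := by
    rw [Matrix.transpose_mul, hη, skew_conj _ _ (et_skew K), Matrix.neg_mul]
  have h5 : Matrix.of (Ps H K) = (cay (om H) * ω) * D a (dgl H) * (cay (et H))ᵀ +
      cay (om H) * D a (dgl K) * (cay (et H))ᵀ +
      cay (om H) * D a (dgl H) * (cay (et H) * η)ᵀ := by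
    rw [h1, ← h4, Matrix.mul_sub, Matrix.mul_add, Matrix.sub_mul, Matrix.add_mul, Matrix.mul_neg,
      sub_eq_add_neg]
    simp only [Matrix.mul_assoc]
  rw [h2, h3] at h5
  have h6 := congrFun (congrFun h5 r) c
  have h7 : ∀ (M : Matrix (Fin n ⊕ Fin a) (Fin n ⊕ Fin a) ℝ) (t : Fin n → ℝ)
      (N : Matrix (Fin n) (Fin n) ℝ), (M * D a t * Nᵀ) r c = ∑ m, M r (.inl m) * t m * N c m := by
    intro M t N
    rw [Matrix.mul_apply]
    apply Finset.sum_congr rfl
    intro m _
    rw [mulD, Matrix.transpose_apply]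
  rw [Matrix.add_apply, Matrix.add_apply, h7, h7, h7] at h6
  rw [Finset.sum_add_distrib, Finset.sum_add_distrib]
  exact h6

theorem Psi_apply (H : Mt n a) (r : Fin n ⊕ Fin a) (c : Fin n) : Psi H r c =
    ∑ m, cay (om H) r (.inl m) * dgl H m * cay (et H) c m := by
  unfold Psi
  show (cay (om H) * D a (dgl H) * (cay (et H))ᵀ) r c = _
  rw [Matrix.mul_apply]
  apply Finset.sum_congr rfl
  intro m _
  rw [mulD, Matrix.transpose_apply]

theorem cay_deriv {κ : Type} [Fintype κ] [DecidableEq κ] (A : Mt n a →ₗ[ℝ] Matrix κ κ ℝ)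
    (hA : ∀ H, (A H)ᵀ = -(A H)) (H : Mt n a) (r c : κ) :
    ∃ L : Mt n a →L[ℝ] ℝ, (∀ K, L K = ((-2 : ℝ) • ((1 + A H)⁻¹ * A K * (1 + A H)⁻¹)) r c) ∧
      HasFDerivAt (fun H => cay (A H) r c) L H := by
  obtain ⟨L0, hL0⟩ : ∃ L0 : Mt n a →ₗ[ℝ] ℝ, ∀ K, L0 K =
      -(((1 + A H)⁻¹ * A K * (1 + A H)⁻¹) r c) :=
    ⟨{ toFun := fun K => -(((1 + A H)⁻¹ * A K * (1 + A H)⁻¹) r c)
       map_add' := fun K K' => by
        rw [map_add, Matrix.mul_add, Matrix.add_mul, Matrix.add_apply]
        ring
       map_smul' := fun t K => by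
        rw [map_smul, Matrix.mul_smul, Matrix.smul_mul, Matrix.smul_apply]
        simp }, fun _ => rfl⟩
  have h1 := inv_deriv A H (unit_one_add _ (hA H)) r c L0 hL0
  have h2 := (h1.const_mul 2).sub_const ((1 : Matrix κ κ ℝ) r c)
  refine ⟨(2 : ℝ) • LinearMap.toContinuousLinearMap L0, ?_, ?_⟩
  · intro K
    show (2 : ℝ) * L0 K = _
    rw [hL0, Matrix.smul_apply, smul_eq_mul]
    ring
  · have h3 : (fun H => cay (A H) r c) =
        fun H => 2 * (1 + A H)⁻¹ r c - (1 : Matrix κ κ ℝ) r c := by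
      funext H
      rw [cay_eq _ (hA H), Matrix.sub_apply, Matrix.smul_apply, smul_eq_mul]
    rw [h3]
    exact h2

theorem Psi_deriv (H : Mt n a) : HasFDerivAt (Psi : Mt n a → Mt n a)
    (LinearMap.toContinuousLinearMap (Ps H)) H := by
  rw [hasFDerivAt_pi']
  intro r
  rw [hasFDerivAt_pi']
  intro c
  have h1 : (fun H : Mt n a => Psi H r c) = fun H =>
      ∑ m, cay (om H) r (.inl m) * dgl H m * cay (et H) c m := by
    funext H
    exact Psi_apply H r c
  rw [h1]
  choose LP hLP hP using fun m : Fin n => cay_deriv omL om_skew H r (.inl m)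
  choose LQ hLQ hQ using fun m : Fin n => cay_deriv etL et_skew H c m
  have hd : ∀ m : Fin n, HasFDerivAt (fun H : Mt n a => dgl H m)
      ((ContinuousLinearMap.proj m : (Fin n → ℝ) →L[ℝ] ℝ).comp
        (ContinuousLinearMap.proj (R := ℝ) (φ := fun _ : Fin n ⊕ Fin a => Fin n → ℝ) (.inl m))) H := by
    intro m
    exact ((ContinuousLinearMap.proj m : (Fin n → ℝ) →L[ℝ] ℝ).comp
        (ContinuousLinearMap.proj (R := ℝ) (φ := fun _ : Fin n ⊕ Fin a => Fin n → ℝ) (.inl m))).hasFDerivAt
  have h2 := HasFDerivAt.fun_sum (u := univ) (fun m _ => ((hP m).mul (hd m)).mul (hQ m))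
  refine h2.congr_fderiv ?_
  ext K
  show _ = Ps H K r c
  rw [Ps_apply, _root_.sum_apply]
  apply Finset.sum_congr rfl
  intro m _
  show (cay (om H) r (.inl m) * dgl H m) * LQ m K + cay (et H) c m *
    (cay (om H) r (.inl m) * K (.inl m) m + dgl H m * LP m K) = _
  rw [hLQ, hLP]
  show (cay (om H) r (.inl m) * dgl H m) * ((-2 : ℝ) • ((1 + et H)⁻¹ * et K * (1 + et H)⁻¹)) c m +
    cay (et H) c m * (cay (om H) r (.inl m) * dgl K m + dgl H m *
      ((-2 : ℝ) • ((1 + om H)⁻¹ * om K * (1 + om H)⁻¹)) r (.inl m)) = _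
  ring

theorem cont_inv {κ : Type} [Fintype κ] [DecidableEq κ] (A : Mt n a → Matrix κ κ ℝ)
    (hc : Continuous A) (hA : ∀ H, (A H)ᵀ = -(A H)) : Continuous (fun H => (1 + A H)⁻¹) := by
  have h1 : Continuous (fun H : Mt n a => (1 + A H)) := continuous_const.add hc
  have h3 : ∀ H : Mt n a, (1 + A H)⁻¹ = ((1 + A H).det)⁻¹ • (1 + A H).adjugate := by
    intro H
    rw [Matrix.inv_def, Ring.inverse_eq_inv']
  simp_rw [h3]
  refine Continuous.smul (Continuous.inv₀ h1.matrix_det ?_) h1.matrix_adjugate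
  intro H
  have := (Matrix.isUnit_iff_isUnit_det _).1 (unit_one_add (A H) (hA H))
  exact this.ne_zero

theorem cont_cayA {κ : Type} [Fintype κ] [DecidableEq κ] (A : Mt n a → Matrix κ κ ℝ)
    (hc : Continuous A) (hA : ∀ H, (A H)ᵀ = -(A H)) : Continuous (fun H => cay (A H)) := by
  unfold cay
  exact (continuous_const.sub hc).matrix_mul (cont_inv A hc hA)

theorem cont_om : Continuous (fun H : Mt n a => om H) :=
  (omL : Mt n a →ₗ[ℝ] Matrix (Fin n ⊕ Fin a) (Fin n ⊕ Fin a) ℝ).continuous_of_finiteDimensional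

theorem cont_enc (ω : Mt n a → Matrix (Fin n ⊕ Fin a) (Fin n ⊕ Fin a) ℝ)
    (η : Mt n a → Matrix (Fin n) (Fin n) ℝ) (d : Fin n → ℝ) (hω : Continuous ω) (hη : Continuous η) :
    Continuous (fun H => enc (ω H) (η H) d) := by
  apply continuous_pi
  intro r
  apply continuous_pi
  intro c
  rcases r with i | k
  · simp only [enc]
    split_ifs
    · exact hω.matrix_elem _ _
    · exact hη.matrix_elem _ _
    · exact continuous_const
  · simp only [enc]
    exact hω.matrix_elem _ _

theorem jac' : S_jac := by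
  intro n a
  refine ⟨fun H => LinearMap.toContinuousLinearMap (Ps H), fun H =>
    |LinearMap.det (LL (cay (om H)) (cay (et H)))| *
      (|LinearMap.det (Bop : Mt n a →ₗ[ℝ] Mt n a)| * |LinearMap.det (Aop : Mt n a →ₗ[ℝ] Mt n a)|) *
      |LinearMap.det (Qop ((1 + om H)⁻¹) ((1 + et H)⁻¹))|, Psi_deriv, ?_, ?_, ?_, ?_, ?_⟩
  · have hP := cont_cayA (fun H : Mt n a => om H) cont_om om_skew
    have hQ := cont_cayA (fun H : Mt n a => et H) cont_et et_skew
    have hR := cont_inv (fun H : Mt n a => om H) cont_om om_skew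
    have hS := cont_inv (fun H : Mt n a => et H) cont_et et_skew
    have h1 : Continuous (fun H : Mt n a => LinearMap.det (LL (cay (om H)) (cay (et H)))) := by
      apply cont_det
      intro K
      have h2 : Continuous (fun H : Mt n a => cay (om H) * Matrix.of K * (cay (et H))ᵀ) :=
        (hP.matrix_mul continuous_const).matrix_mul hQ.matrix_transpose
      exact h2
    have h2 : Continuous (fun H : Mt n a =>
        LinearMap.det (Qop (n := n) (a := a) ((1 + om H)⁻¹) ((1 + et H)⁻¹))) := by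
      apply cont_det
      intro K
      have e1 : Continuous (fun H : Mt n a => (-2 : ℝ) • (((1 + om H)⁻¹)ᵀ * om K * (1 + om H)⁻¹)) :=
        Continuous.fun_const_smul ((hR.matrix_transpose.matrix_mul continuous_const).matrix_mul hR) (-2 : ℝ)
      have e2 : Continuous (fun H : Mt n a => (-2 : ℝ) • (((1 + et H)⁻¹)ᵀ * et K * (1 + et H)⁻¹)) :=
        Continuous.fun_const_smul ((hS.matrix_transpose.matrix_mul continuous_const).matrix_mul hS) (-2 : ℝ)
      exact cont_enc _ _ _ e1 e2
    exact (h1.abs.mul continuous_const).mul h2.abs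
  · have h1 : om (0 : Mt n a) = 0 := by
      have := om_smul (0 : ℝ) (0 : Mt n a)
      rwa [zero_smul, zero_smul] at this
    have h2 : et (0 : Mt n a) = 0 := by
      have := et_smul (0 : ℝ) (0 : Mt n a)
      rwa [zero_smul, zero_smul] at this
    have h3 : ∀ (κ : Type) [Fintype κ] [DecidableEq κ], cay (0 : Matrix κ κ ℝ) = 1 := by
      intro κ _ _
      unfold cay
      simp
    have h4 : LL (1 : Matrix (Fin n ⊕ Fin a) (Fin n ⊕ Fin a) ℝ) 1 = LinearMap.id := by
      ext K r c
      simp [LL]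
    have h5 : Qop ((1 + om (0 : Mt n a))⁻¹) ((1 + et (0 : Mt n a))⁻¹) =
        Esc (fun r c => if r = .inl c then 1 else -2) := by
      rw [h1, h2]
      apply LinearMap.ext
      intro K
      funext r c
      rcases r with i | k
      · simp only [Qop, Esc, enc, LinearMap.coe_mk, AddHom.coe_mk, add_zero, inv_one,
          Matrix.transpose_one, Matrix.one_mul, Matrix.mul_one, Matrix.smul_apply, smul_eq_mul, om,
          et, of_apply, Sum.inl.injEq, dgl]
        rcases lt_trichotomy i c with h | h | h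
        · simp [h, h.ne]
        · subst h
          simp
        · simp [h, h.ne', h.not_gt]
      · simp [Qop, Esc, enc, om]
    have hA := det_ne _ (AB_inj (n := n) (a := a)).1
    have hB := det_ne _ (AB_inj (n := n) (a := a)).2
    show 0 < |LinearMap.det (LL (cay (om (0 : Mt n a))) (cay (et (0 : Mt n a))))| * _ *
      |LinearMap.det (Qop ((1 + om (0 : Mt n a))⁻¹) ((1 + et (0 : Mt n a))⁻¹))|
    rw [h5, h1, h2, h3, h3, h4, LinearMap.det_id, abs_one, one_mul, det_Esc]
    refine mul_pos (mul_pos (abs_pos.2 hB) (abs_pos.2 hA)) (abs_pos.2 ?_)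
    apply Finset.prod_ne_zero_iff.2
    intro r _
    apply Finset.prod_ne_zero_iff.2
    intro c _
    split_ifs <;> norm_num
  · intro H
    positivity
  · intro H
    simp only [om_off, et_off]
  · intro H
    show |LinearMap.det (Ps H)| = _
    unfold Ps
    rw [LinearMap.det_comp, LinearMap.det_comp, det_Top, abs_mul, abs_mul, abs_mul, abs_mul]
    ring

theorem jac (_ : S_cay) : S_jac := jac'

end Pool.Agent.Q251.MXJ
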